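import Pool.Agent.Work.MP_6e5b56_gt.Sub

-- merged part: Pool.Agent.Work.MP_6e5b56_gt.Hedge.Kernel
section
/-! Fourier representation of the twisted kernel `exp (-‖z‖ - ⟪η, z⟫)` in any dimension. -/

set_option autoImplicit false

open MeasureTheory Set Filter Real

namespace Pool.Agent.Work.MP_6e5b56_gt.Hedge

/-- Gaussian moments on the half line. -/
noncomputable def cI (k : ℕ) (a : ℝ) : ℝ := ∫ v in Ioi (0:ℝ), v ^ k * exp (-a * v ^ 2)

lemma integrableOn_cI (k : ℕ) {a : ℝ} (ha : 0 < a) :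
    IntegrableOn (fun v : ℝ => v ^ k * exp (-a * v ^ 2)) (Ioi 0) := by
  have h := integrableOn_rpow_mul_exp_neg_mul_sq ha (s := (k : ℝ))
    (lt_of_lt_of_le (by norm_num) (Nat.cast_nonneg k))
  simpa only [rpow_natCast] using h

lemma cI_pos (k : ℕ) {a : ℝ} (ha : 0 < a) : 0 < cI k a := by
  unfold cI
  rw [setIntegral_pos_iff_support_of_nonneg_ae _ (integrableOn_cI k ha)]
  · have : Function.support (fun v : ℝ => v ^ k * exp (-a * v ^ 2)) ∩ Ioi 0 = Ioi 0 := by
      refine inter_eq_right.2 (fun v hv => ?_)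
      have hv' : (0:ℝ) < v := hv
      exact (by positivity : v ^ k * exp (-a * v ^ 2) ≠ 0)
    rw [this]
    simp
  · filter_upwards [ae_restrict_mem measurableSet_Ioi] with v hv
    have hv' : (0:ℝ) < v := hv
    exact (by positivity : 0 ≤ v ^ k * exp (-a * v ^ 2))

lemma cI_scale (k : ℕ) (a : ℝ) {s : ℝ} (hs : 0 < s) :
    cI k (a * s ^ 2) = cI k a / s ^ (k + 1) := by
  have h := integral_comp_mul_left_Ioi (fun u : ℝ => u ^ k * exp (-a * u ^ 2)) 0 hs
  simp only [mul_zero, smul_eq_mul] at h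
  have h2 : ∀ v : ℝ, (s * v) ^ k * exp (-a * (s * v) ^ 2)
      = s ^ k * (v ^ k * exp (-(a * s ^ 2) * v ^ 2)) := by
    intro v
    rw [mul_pow, mul_assoc]
    congr 3
    ring
  simp_rw [h2] at h
  rw [integral_const_mul] at h
  unfold cI
  have hs' : s ≠ 0 := hs.ne'
  rw [eq_div_iff (by positivity), pow_succ s k, mul_comm, mul_comm (s ^ k) s, mul_assoc, h,
    mul_inv_cancel_left₀ hs']

lemma norm_exp_sub_one_le {x : ℝ} (hx : 0 ≤ x) (y : ℝ) :
    ‖Complex.exp ((x : ℂ) + Complex.I * (y : ℂ)) - 1‖ ≤ (x + |y|) * exp x := by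
  have h1 : Complex.exp ((x : ℂ) + Complex.I * (y : ℂ)) - 1
      = ((exp x : ℝ) : ℂ) * (Complex.exp (Complex.I * (y : ℂ)) - 1) + ((exp x - 1 : ℝ) : ℂ) := by
    rw [Complex.exp_add]; push_cast; ring
  have h2 : ‖Complex.exp (Complex.I * (y : ℂ)) - 1‖ ≤ |y| := by
    simpa using Real.norm_exp_I_mul_ofReal_sub_one_le (x := y)
  have h3 : exp x - 1 ≤ x * exp x := by
    have := Real.add_one_le_exp (-x)
    have h4 : exp (-x) * exp x = 1 := by rw [← exp_add]; simp
    linarith only [h4, this, exp_pos x, mul_nonneg_of_nonpos_of_nonpos (Mathlib.Tactic.Linarith.sub_nonpos_of_le this) (le_of_lt (Mathlib.Tactic.Linarith.sub_neg_of_lt (exp_pos x)))]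
  have h5 : 0 ≤ exp x - 1 := by linarith [Real.add_one_le_exp x]
  rw [h1]
  refine (norm_add_le _ _).trans ?_
  rw [norm_mul, Complex.norm_real, Complex.norm_real, Real.norm_of_nonneg (exp_pos x).le,
    Real.norm_of_nonneg h5]
  linarith only [h3, h2, exp_pos x, mul_le_mul_of_nonneg_left h2 (exp_pos x).le]

variable {V : Type*} [NormedAddCommGroup V]

/-- The Japanese bracket. -/
noncomputable def sb (ξ : V) : ℝ := √(1 + ‖ξ‖ ^ 2)

lemma sb_sq (ξ : V) : sb ξ ^ 2 = 1 + ‖ξ‖ ^ 2 := Real.sq_sqrt (by positivity)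

lemma one_le_sb (ξ : V) : 1 ≤ sb ξ := Real.le_sqrt_of_sq_le (by linarith only [sq_nonneg ‖ξ‖, sq_nonneg ‖ξ‖])

lemma sb_pos (ξ : V) : 0 < sb ξ := lt_of_lt_of_le one_pos (one_le_sb ξ)

lemma norm_le_sb (ξ : V) : ‖ξ‖ ≤ sb ξ := Real.le_sqrt_of_sq_le (by linarith)

lemma sb_le (ξ : V) : sb ξ ≤ 1 + ‖ξ‖ :=
  Real.sqrt_le_iff.2 ⟨by positivity, by linarith only [norm_nonneg ξ]⟩

lemma continuous_sb : Continuous (sb : V → ℝ) := by unfold sb; fun_prop

lemma sb_peetre (ξ ζ : V) : sb ξ ≤ (1 + ‖ζ‖) * sb (ξ - ζ) := by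
  have h1 : ‖ξ‖ ≤ ‖ξ - ζ‖ + ‖ζ‖ := by simpa using norm_add_le (ξ - ζ) ζ
  have h2 := norm_le_sb (ξ - ζ)
  have h3 := one_le_sb (ξ - ζ)
  have h4 := sb_sq (ξ - ζ)
  have h5 := norm_nonneg ζ
  have h6 := norm_nonneg (ξ - ζ)
  have h7 : sb ξ ≤ sb (ξ - ζ) + ‖ζ‖ := by
    refine Real.sqrt_le_iff.2 ⟨by positivity, ?_⟩
    have : ‖ξ‖ ^ 2 ≤ (‖ξ - ζ‖ + ‖ζ‖) ^ 2 := pow_le_pow_left₀ (norm_nonneg _) h1 2
    linarith only [h4, this, h2, h5, mul_nonneg_of_nonpos_of_nonpos (Mathlib.Tactic.Linarith.sub_nonpos_of_le h2) (Mathlib.Tactic.Linarith.sub_nonpos_of_le h5)]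
  linarith only [h7, h3, h5, mul_nonneg_of_nonpos_of_nonpos (Mathlib.Tactic.Linarith.sub_nonpos_of_le h3) (Mathlib.Tactic.Linarith.sub_nonpos_of_le h5)]

variable [InnerProductSpace ℝ V]

/-- The character `exp (i ⟪ξ, x⟫)`. -/
noncomputable def ch (ξ x : V) : ℂ := Complex.exp (Complex.I * ((inner ℝ ξ x : ℝ) : ℂ))

lemma norm_ch (ξ x : V) : ‖ch ξ x‖ = 1 := by
  unfold ch
  rw [mul_comm, Complex.norm_exp_ofReal_mul_I]

lemma ch_add_left (ξ ζ x : V) : ch (ξ + ζ) x = ch ξ x * ch ζ x := by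
  unfold ch
  rw [← Complex.exp_add, inner_add_left]
  push_cast
  ring_nf

lemma ch_sub_right (ξ x y : V) : ch ξ (x - y) = ch ξ x * (starRingEnd ℂ) (ch ξ y) := by
  unfold ch
  rw [← Complex.exp_conj, ← Complex.exp_add, inner_sub_right]
  simp only [map_mul, Complex.conj_I, Complex.conj_ofReal]
  push_cast
  ring_nf

lemma continuous_ch (x : V) : Continuous (fun ξ : V => ch ξ x) := by unfold ch; fun_prop

/-- The integrand of the twisted weight. -/
noncomputable def T (η : V) (v : ℝ) (ξ : V) : ℂ :=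
  ((v ^ Module.finrank ℝ V * exp (-(1 / 2 * sb ξ ^ 2) * v ^ 2) : ℝ) : ℂ) *
    Complex.exp (((v ^ 2 * ‖η‖ ^ 2 / 2 : ℝ) : ℂ) + Complex.I * ((v ^ 2 * inner ℝ η ξ : ℝ) : ℂ))

lemma continuous_T (η : V) : Continuous (fun q : ℝ × V => T η q.1 q.2) := by
  unfold T
  have := (continuous_sb : Continuous (sb : V → ℝ))
  fun_prop

lemma T_mul_ch (η z : V) (v : ℝ) (ξ : V) : T η v ξ * ch ξ z =
    ((v ^ Module.finrank ℝ V * exp (-(1 / 2) * v ^ 2) * exp (v ^ 2 * ‖η‖ ^ 2 / 2) : ℝ) : ℂ) *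
      Complex.exp (-((v ^ 2 / 2 : ℝ) : ℂ) * (‖ξ‖ : ℂ) ^ 2 +
        Complex.I * ((inner ℝ (z + v ^ 2 • η) ξ : ℝ) : ℂ)) := by
  unfold T ch
  rw [sb_sq, inner_add_left, real_inner_smul_left, real_inner_comm ξ z]
  push_cast
  simp only [mul_assoc, ← Complex.exp_add]
  congr 2
  ring

lemma norm_T {v : ℝ} (hv : 0 < v) (η ξ : V) : ‖T η v ξ‖ =
    v ^ Module.finrank ℝ V * exp (-((1 - ‖η‖ ^ 2) / 2) * v ^ 2) * exp (-(v ^ 2 / 2) * ‖ξ‖ ^ 2) := by
  unfold T
  rw [norm_mul, Complex.norm_real, Real.norm_of_nonneg (by positivity), Complex.norm_exp, sb_sq]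
  simp only [Complex.add_re, Complex.ofReal_re, Complex.mul_re, Complex.I_re, Complex.I_im,
    Complex.ofReal_im, zero_mul, mul_zero, sub_zero, add_zero, mul_assoc, ← exp_add]
  congr 2
  ring

lemma pow_mul_gauss_const {v : ℝ} (hv : 0 < v) (d : ℕ) :
    v ^ d * (π / (v ^ 2 / 2)) ^ ((d : ℝ) / 2) = (2 * π) ^ ((d : ℝ) / 2) := by
  have h1 : π / (v ^ 2 / 2) = (2 * π) / v ^ 2 := by field_simp
  have h2 : (v ^ 2) ^ ((d : ℝ) / 2) = v ^ d := by
    rw [← rpow_natCast v 2, ← rpow_mul hv.le, ← rpow_natCast v d]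
    congr 1
    push_cast
    ring
  rw [h1, div_rpow (by positivity) (by positivity), h2]
  field_simp

variable [FiniteDimensional ℝ V] [MeasurableSpace V] [BorelSpace V]

lemma integrable_T_right (η : V) {v : ℝ} (hv : 0 < v) : Integrable (fun ξ : V => T η v ξ) := by
  have hb : 0 < ((v ^ 2 / 2 : ℝ) : ℂ).re := by simp only [Complex.ofReal_re]; positivity
  have h := (GaussianFourier.integrable_cexp_neg_mul_sq_norm_add hb Complex.I
    ((0 : V) + v ^ 2 • η)).const_mul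
    ((v ^ Module.finrank ℝ V * exp (-(1 / 2) * v ^ 2) * exp (v ^ 2 * ‖η‖ ^ 2 / 2) : ℝ) : ℂ)
  refine h.congr (Eventually.of_forall fun ξ => ?_)
  simp only
  rw [← T_mul_ch]
  simp [ch]

lemma integrable_T {η : V} (hη : ‖η‖ < 1) :
    Integrable (fun q : ℝ × V => T η q.1 q.2) ((volume.restrict (Ioi (0:ℝ))).prod volume) := by
  rw [integrable_prod_iff (continuous_T η).aestronglyMeasurable]
  constructor
  · filter_upwards [ae_restrict_mem measurableSet_Ioi] with v hv
    exact integrable_T_right η hv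
  · have ha : 0 < (1 - ‖η‖ ^ 2) / 2 := by linarith only [hη, norm_nonneg η, mul_nonneg_of_nonpos_of_nonpos (le_of_lt (Mathlib.Tactic.Linarith.sub_neg_of_lt hη)) (Mathlib.Tactic.Linarith.sub_nonpos_of_le (norm_nonneg η))]
    have : IntegrableOn (fun v : ℝ => (2 * π) ^ ((Module.finrank ℝ V : ℝ) / 2) *
        exp (-((1 - ‖η‖ ^ 2) / 2) * v ^ 2)) (Ioi 0) :=
      ((integrable_exp_neg_mul_sq ha).const_mul _).integrableOn
    refine this.congr ?_
    filter_upwards [ae_restrict_mem measurableSet_Ioi] with v hv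
    have hv' : (0:ℝ) < v := hv
    simp_rw [norm_T hv']
    rw [integral_const_mul, GaussianFourier.integral_rexp_neg_mul_sq_norm (by positivity),
      ← pow_mul_gauss_const hv']
    ring

lemma integral_T_ch (η z : V) {v : ℝ} (hv : 0 < v) : ∫ ξ : V, T η v ξ * ch ξ z =
    (((2 * π) ^ ((Module.finrank ℝ V : ℝ) / 2) * exp (-inner ℝ η z) *
      (exp (-(1 / 2) * v ^ 2) * exp (-(‖z‖ ^ 2 / (2 * v ^ 2)))) : ℝ) : ℂ) := by
  have hb : 0 < ((v ^ 2 / 2 : ℝ) : ℂ).re := by simp only [Complex.ofReal_re]; positivity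
  simp_rw [T_mul_ch]
  rw [integral_const_mul, GaussianFourier.integral_cexp_neg_mul_sq_norm_add hb]
  have e1 : ((π : ℂ) / ((v ^ 2 / 2 : ℝ) : ℂ)) ^ ((Module.finrank ℝ V : ℂ) / 2)
      = (((π / (v ^ 2 / 2)) ^ ((Module.finrank ℝ V : ℝ) / 2) : ℝ) : ℂ) := by
    rw [Complex.ofReal_cpow (by positivity)]
    push_cast
    rfl
  have e2 : Complex.I ^ 2 * ((‖z + v ^ 2 • η‖ : ℝ) : ℂ) ^ 2 / (4 * ((v ^ 2 / 2 : ℝ) : ℂ))
      = ((-(‖z‖ ^ 2 / (2 * v ^ 2)) + -inner ℝ η z + -(v ^ 2 * ‖η‖ ^ 2 / 2) : ℝ) : ℂ) := by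
    have h : ‖z + v ^ 2 • η‖ ^ 2 = ‖z‖ ^ 2 + 2 * (v ^ 2 * inner ℝ η z) + (v ^ 2) ^ 2 * ‖η‖ ^ 2 := by
      rw [norm_add_sq_real, real_inner_smul_right, norm_smul, real_inner_comm,
        Real.norm_of_nonneg (by positivity)]
      ring
    have h' : (-(‖z‖ ^ 2 / (2 * v ^ 2)) + -inner ℝ η z + -(v ^ 2 * ‖η‖ ^ 2 / 2) : ℝ)
        = -(‖z + v ^ 2 • η‖ ^ 2) / (4 * (v ^ 2 / 2)) := by
      rw [h]; field_simp; ring
    rw [h', Complex.I_sq]
    push_cast
    ring
  rw [e1, e2, ← Complex.ofReal_exp, ← Complex.ofReal_mul, ← Complex.ofReal_mul,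
    ← pow_mul_gauss_const hv, exp_add, exp_add, exp_neg (v ^ 2 * ‖η‖ ^ 2 / 2)]
  congr 1
  field_simp

/-- The normalising constant. -/
noncomputable def c0 (V : Type*) [NormedAddCommGroup V] [InnerProductSpace ℝ V] : ℝ :=
  (2 * π) ^ ((Module.finrank ℝ V : ℝ) / 2) * (√(2 * π) / 2)

omit [FiniteDimensional ℝ V] [MeasurableSpace V] [BorelSpace V] in
lemma c0_pos : 0 < c0 V := by unfold c0; have := pi_pos; positivity

lemma rep_T {η : V} (hη : ‖η‖ < 1) (z : V) :
    ∫ ξ : V, (∫ v in Ioi (0:ℝ), T η v ξ) * ch ξ z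
      = ((c0 V * exp (-‖z‖ - inner ℝ η z) : ℝ) : ℂ) := by
  have hint : Integrable (Function.uncurry fun (v : ℝ) (ξ : V) => T η v ξ * ch ξ z)
      ((volume.restrict (Ioi (0:ℝ))).prod volume) := by
    refine Integrable.mono (integrable_T hη) ?_ ?_
    · exact ((continuous_T η).mul ((continuous_ch z).comp continuous_snd)).aestronglyMeasurable
    · refine Eventually.of_forall (fun q => ?_)
      simp [Function.uncurry, norm_ch]
  have hsw := integral_integral_swap hint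
  simp_rw [← integral_mul_const]
  rw [← hsw, setIntegral_congr_fun measurableSet_Ioi (fun v hv => integral_T_ch η z hv),
    integral_complex_ofReal, integral_const_mul, subord (norm_nonneg z)]
  unfold c0
  rw [sub_eq_add_neg, exp_add]
  congr 1
  ring

omit [FiniteDimensional ℝ V] [MeasurableSpace V] [BorelSpace V] in
lemma T_sub_le {η : V} {γ : ℝ} (hγ : γ ≤ 1 / 2) (hη : ‖η‖ ≤ γ) {v : ℝ} (hv : 0 < v) (ξ : V) :
    ‖T η v ξ - T 0 v ξ‖ ≤ 2 * γ * sb ξ ^ 2 *
      (v ^ (Module.finrank ℝ V + 2) * exp (-(1 / 4 * sb ξ ^ 2) * v ^ 2)) := by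
  have h0 := norm_nonneg η
  have hs := one_le_sb ξ
  have hx : 0 ≤ v ^ 2 * ‖η‖ ^ 2 / 2 := by positivity
  have h1 := norm_exp_sub_one_le hx (v ^ 2 * inner ℝ η ξ)
  have h2 : T η v ξ - T 0 v ξ =
      ((v ^ Module.finrank ℝ V * exp (-(1 / 2 * sb ξ ^ 2) * v ^ 2) : ℝ) : ℂ) *
        (Complex.exp (((v ^ 2 * ‖η‖ ^ 2 / 2 : ℝ) : ℂ) +
          Complex.I * ((v ^ 2 * inner ℝ η ξ : ℝ) : ℂ)) - 1) := by
    unfold T
    simp [mul_sub]
  have h3 : |v ^ 2 * inner ℝ η ξ| ≤ v ^ 2 * (γ * sb ξ) := by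
    rw [abs_mul, abs_of_nonneg (sq_nonneg v)]
    refine mul_le_mul_of_nonneg_left ((abs_real_inner_le_norm η ξ).trans ?_) (sq_nonneg v)
    exact mul_le_mul hη (norm_le_sb ξ) (norm_nonneg _) (h0.trans hη)
  have hγ0 : 0 ≤ γ := h0.trans hη
  have h4 : ‖η‖ ^ 2 ≤ γ ^ 2 := pow_le_pow_left₀ h0 hη 2
  have hs2 : sb ξ ≤ sb ξ ^ 2 := by linarith only [hs, mul_nonneg_of_nonpos_of_nonpos (Mathlib.Tactic.Linarith.sub_nonpos_of_le hs) (Mathlib.Tactic.Linarith.sub_nonpos_of_le hs)]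
  have h5 : v ^ 2 * ‖η‖ ^ 2 / 2 + |v ^ 2 * inner ℝ η ξ| ≤ v ^ 2 * (2 * γ * sb ξ ^ 2) := by
    have : ‖η‖ ^ 2 / 2 + γ * sb ξ ≤ 2 * γ * sb ξ ^ 2 := by
      linarith only [hη, h0, h4, hs2, hγ0, hs, hγ, mul_le_mul_of_nonneg_left hs2 hγ0, mul_le_mul_of_nonneg_left (hs.trans hs2) hγ0, mul_nonneg_of_nonpos_of_nonpos (Mathlib.Tactic.Linarith.sub_nonpos_of_le hγ) (Mathlib.Tactic.Linarith.sub_nonpos_of_le hη), mul_nonneg_of_nonpos_of_nonpos (Mathlib.Tactic.Linarith.sub_nonpos_of_le hγ) (Mathlib.Tactic.Linarith.sub_nonpos_of_le h0)]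
    linarith only [h3, this, mul_le_mul_of_nonneg_left this (sq_nonneg v), sq_nonneg v]
  have h6 : exp (-(1 / 2 * sb ξ ^ 2) * v ^ 2) * exp (v ^ 2 * ‖η‖ ^ 2 / 2)
      ≤ exp (-(1 / 4 * sb ξ ^ 2) * v ^ 2) := by
    rw [← exp_add]
    apply exp_le_exp.2
    have : ‖η‖ ^ 2 / 2 ≤ 1 / 4 * sb ξ ^ 2 := by linarith only [hγ, hs, h4, hs2, hη, h0, mul_nonneg_of_nonpos_of_nonpos (Mathlib.Tactic.Linarith.sub_nonpos_of_le hγ) (Mathlib.Tactic.Linarith.sub_nonpos_of_le hη), mul_nonneg_of_nonpos_of_nonpos (Mathlib.Tactic.Linarith.sub_nonpos_of_le hγ) (Mathlib.Tactic.Linarith.sub_nonpos_of_le h0)]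
    linarith only [this, mul_le_mul_of_nonneg_left this (sq_nonneg v), sq_nonneg v]
  rw [h2, norm_mul, Complex.norm_real, Real.norm_of_nonneg (by positivity)]
  calc _ ≤ v ^ Module.finrank ℝ V * exp (-(1 / 2 * sb ξ ^ 2) * v ^ 2) *
        ((v ^ 2 * (2 * γ * sb ξ ^ 2)) * exp (v ^ 2 * ‖η‖ ^ 2 / 2)) := by
        refine mul_le_mul_of_nonneg_left (h1.trans ?_) (by positivity)
        exact mul_le_mul_of_nonneg_right h5 (exp_pos _).le
    _ = 2 * γ * sb ξ ^ 2 * (v ^ (Module.finrank ℝ V + 2) *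
        (exp (-(1 / 2 * sb ξ ^ 2) * v ^ 2) * exp (v ^ 2 * ‖η‖ ^ 2 / 2))) := by ring
    _ ≤ _ := by gcongr

/-- The weight whose Fourier transform is `exp (-‖z‖)`. -/
noncomputable def kap (ξ : V) : ℝ :=
  cI (Module.finrank ℝ V) (1 / 2) / c0 V / sb ξ ^ (Module.finrank ℝ V + 1)

omit [FiniteDimensional ℝ V] [MeasurableSpace V] [BorelSpace V] in
lemma kap_pos (ξ : V) : 0 < kap ξ := by
  unfold kap
  have := cI_pos (Module.finrank ℝ V) (a := 1 / 2) (by norm_num)
  have := c0_pos (V := V)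
  have := sb_pos ξ
  positivity

omit [FiniteDimensional ℝ V] [MeasurableSpace V] [BorelSpace V] in
lemma integral_T_zero (ξ : V) : ∫ v in Ioi (0:ℝ), T 0 v ξ = ((c0 V * kap ξ : ℝ) : ℂ) := by
  have h : ∀ v : ℝ, T 0 v ξ =
      ((v ^ Module.finrank ℝ V * exp (-(1 / 2 * sb ξ ^ 2) * v ^ 2) : ℝ) : ℂ) := by
    intro v
    unfold T
    simp
  simp_rw [h]
  rw [integral_complex_ofReal]
  congr 1
  have h2 := cI_scale (Module.finrank ℝ V) (1 / 2) (sb_pos ξ)
  have := c0_pos (V := V)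
  unfold kap
  rw [div_div, mul_div_assoc', mul_div_mul_left _ _ this.ne', ← h2]
  rfl

omit [FiniteDimensional ℝ V] [MeasurableSpace V] [BorelSpace V] in
lemma integrableOn_T_left {η : V} (hη : ‖η‖ < 1) (ξ : V) :
    IntegrableOn (fun v : ℝ => T η v ξ) (Ioi 0) := by
  have ha : 0 < (1 - ‖η‖ ^ 2) / 2 := by linarith only [hη, norm_nonneg η, mul_nonneg_of_nonpos_of_nonpos (le_of_lt (Mathlib.Tactic.Linarith.sub_neg_of_lt hη)) (Mathlib.Tactic.Linarith.sub_nonpos_of_le (norm_nonneg η))]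
  refine Integrable.mono' (integrableOn_cI (Module.finrank ℝ V) ha)
    (((continuous_T η).comp (Continuous.prodMk_left ξ)).aestronglyMeasurable) ?_
  filter_upwards [ae_restrict_mem measurableSet_Ioi] with v hv
  have hv' : (0:ℝ) < v := hv
  rw [norm_T hv']
  refine mul_le_of_le_one_right (by positivity) (exp_le_one_iff.2 ?_)
  have : 0 ≤ v ^ 2 / 2 * ‖ξ‖ ^ 2 := by positivity
  linarith only [this]

/-- Twisted representation: the twisted weight is within one half of the weight. -/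
theorem kernel_tw : ∃ γ : ℝ, 0 < γ ∧ ∀ η : V, ‖η‖ ≤ γ → ∃ k : V → ℂ, Integrable k ∧
    (∀ ξ, ‖k ξ - (kap ξ : ℂ)‖ ≤ kap ξ / 2) ∧
    ∀ z, ∫ ξ, k ξ * ch ξ z = ((exp (-‖z‖ - inner ℝ η z) : ℝ) : ℂ) := by
  have p1 := cI_pos (Module.finrank ℝ V) (a := 1 / 2) (by norm_num)
  have p2 := cI_pos (Module.finrank ℝ V + 2) (a := 1 / 4) (by norm_num)
  have p0 := c0_pos (V := V)
  set γ := min (1 / 2) (cI (Module.finrank ℝ V) (1 / 2) / (4 * cI (Module.finrank ℝ V + 2) (1 / 4)))
    with hγ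
  have hγ1 : γ ≤ 1 / 2 := min_le_left _ _
  have hγ2 : γ * (4 * cI (Module.finrank ℝ V + 2) (1 / 4)) ≤ cI (Module.finrank ℝ V) (1 / 2) :=
    (le_div_iff₀ (by positivity)).1 (min_le_right _ _)
  have hγ0 : 0 < γ := lt_min (by norm_num) (by positivity)
  refine ⟨γ, hγ0, fun η hη => ?_⟩
  have hη1 : ‖η‖ < 1 := by linarith only [hγ1, hγ0, hη]
  have hc : ((c0 V : ℝ) : ℂ) ≠ 0 := by exact_mod_cast p0.ne'
  refine ⟨fun ξ => ((c0 V : ℝ) : ℂ)⁻¹ * ∫ v in Ioi (0:ℝ), T η v ξ,
    ((integrable_T hη1).integral_prod_right).const_mul _, fun ξ => ?_, fun z => ?_⟩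
  · have e : ((c0 V : ℝ) : ℂ)⁻¹ * (∫ v in Ioi (0:ℝ), T η v ξ) - (kap ξ : ℂ)
        = ((c0 V : ℝ) : ℂ)⁻¹ * ∫ v in Ioi (0:ℝ), (T η v ξ - T 0 v ξ) := by
      rw [integral_sub (integrableOn_T_left hη1 ξ) (integrableOn_T_left (by simp) ξ),
        integral_T_zero]
      push_cast
      field_simp
    have hs := sb_pos ξ
    have hb : ‖∫ v in Ioi (0:ℝ), (T η v ξ - T 0 v ξ)‖ ≤ ∫ v in Ioi (0:ℝ), 2 * γ * sb ξ ^ 2 *
        (v ^ (Module.finrank ℝ V + 2) * exp (-(1 / 4 * sb ξ ^ 2) * v ^ 2)) := by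
      refine norm_integral_le_of_norm_le ((integrableOn_cI _ (by positivity)).const_mul _) ?_
      filter_upwards [ae_restrict_mem measurableSet_Ioi] with v hv
      exact T_sub_le hγ1 hη hv ξ
    rw [integral_const_mul] at hb
    have h2 := cI_scale (Module.finrank ℝ V + 2) (1 / 4) hs
    unfold cI at h2
    rw [h2] at hb
    rw [e, norm_mul, norm_inv, Complex.norm_real, Real.norm_of_nonneg p0.le]
    refine (mul_le_mul_of_nonneg_left hb (by positivity)).trans ?_
    change _ * (_ * (cI (Module.finrank ℝ V + 2) (1 / 4) / _)) ≤ _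
    unfold kap
    have e2 : (c0 V)⁻¹ * (2 * γ * sb ξ ^ 2 *
        (cI (Module.finrank ℝ V + 2) (1 / 4) / sb ξ ^ (Module.finrank ℝ V + 2 + 1)))
        = γ * (4 * cI (Module.finrank ℝ V + 2) (1 / 4)) / c0 V /
          sb ξ ^ (Module.finrank ℝ V + 1) / 2 := by
      field_simp
      ring
    rw [e2]
    gcongr
  · simp_rw [mul_assoc]
    rw [integral_const_mul, rep_T hη1]
    push_cast
    field_simp

lemma integrable_kap : Integrable (kap : V → ℝ) := by
  have h := (integrable_T (η := (0 : V)) (by simp)).integral_prod_right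
  simp_rw [integral_T_zero] at h
  have h2 := h.re
  simp only [RCLike.re_to_complex, Complex.ofReal_re] at h2
  exact (integrable_const_mul_iff (IsUnit.mk0 _ (c0_pos (V := V)).ne') _).1 h2

lemma kernel_zero (z : V) : ∫ ξ, (kap ξ : ℂ) * ch ξ z = ((exp (-‖z‖) : ℝ) : ℂ) := by
  have h := rep_T (η := (0 : V)) (by simp) z
  have hc : ((c0 V : ℝ) : ℂ) ≠ 0 := by exact_mod_cast (c0_pos (V := V)).ne'
  simp_rw [integral_T_zero] at h
  simp only [inner_zero_left, sub_zero, Complex.ofReal_mul, mul_assoc] at h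
  rw [integral_const_mul] at h
  exact mul_left_cancel₀ hc h

omit [FiniteDimensional ℝ V] [MeasurableSpace V] [BorelSpace V] in
lemma continuous_kap : Continuous (kap : V → ℝ) := by
  unfold kap
  exact continuous_const.div (continuous_sb.pow _) (fun ξ => (pow_pos (sb_pos ξ) _).ne')

omit [FiniteDimensional ℝ V] [MeasurableSpace V] [BorelSpace V] in
lemma kap_peetre (ξ ζ : V) : kap (ξ - ζ) ≤ (1 + ‖ζ‖) ^ (Module.finrank ℝ V + 1) * kap ξ := by
  have p1 := cI_pos (Module.finrank ℝ V) (a := 1 / 2) (by norm_num)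
  have p0 := c0_pos (V := V)
  have h1 := sb_pos ξ
  have h2 := sb_pos (ξ - ζ)
  have h := pow_le_pow_left₀ h1.le (sb_peetre ξ ζ) (Module.finrank ℝ V + 1)
  unfold kap
  rw [mul_div_assoc', div_le_div_iff₀ (by positivity) (by positivity)]
  rw [mul_pow] at h
  have := mul_le_mul_of_nonneg_left h (by positivity : 0 ≤ cI (Module.finrank ℝ V) (1 / 2) / c0 V)
  linarith only [this]

omit [FiniteDimensional ℝ V] [MeasurableSpace V] [BorelSpace V] in
lemma inv_kap_le : ∃ c : ℝ, 0 ≤ c ∧ ∀ ξ : V,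
    (kap ξ)⁻¹ ≤ c * (1 + ‖ξ‖) ^ (Module.finrank ℝ V + 1) := by
  have p1 := cI_pos (Module.finrank ℝ V) (a := 1 / 2) (by norm_num)
  have p0 := c0_pos (V := V)
  refine ⟨(cI (Module.finrank ℝ V) (1 / 2) / c0 V)⁻¹, by positivity, fun ξ => ?_⟩
  unfold kap
  rw [inv_div, div_eq_inv_mul]
  exact mul_le_mul_of_nonneg_left (pow_le_pow_left₀ (sb_pos ξ).le (sb_le ξ) _) (by positivity)

end Pool.Agent.Work.MP_6e5b56_gt.Hedge
end

-- merged part: Pool.Agent.Work.MP_6e5b56_gt.Hedge.Form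
section
/-! The bilinear form of the kernel `exp (-dist x y)` on a finite set: Cauchy-Schwarz, twisting by
exponentials, multiplication by smooth bumps, and smooth functionals. -/

set_option autoImplicit false

open MeasureTheory Set Filter Real
open scoped FourierTransform ContDiff

namespace Pool.Agent.Work.MP_6e5b56_gt.Hedge

lemma amgm {X A B : ℝ} (hA : 0 ≤ A) (hB : 0 ≤ B)
    (h : ∀ l : ℝ, 0 < l → X ≤ (l * A + B / l) / 2) : X ≤ √A * √B := by
  by_contra hX
  push Not at hX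
  have hX0 : 0 < X := lt_of_le_of_lt (by positivity) hX
  rcases hA.eq_or_lt with hA0 | hA0
  · have h1 := h ((B + 1) / X) (by positivity)
    rw [← hA0, mul_zero, zero_add, div_div_eq_mul_div, div_div, le_div_iff₀ (by positivity)] at h1
    linarith only [hX0, h1, hB, mul_nonneg_of_nonpos_of_nonpos (Mathlib.Tactic.Linarith.sub_nonpos_of_le hB) (le_of_lt (Mathlib.Tactic.Linarith.sub_neg_of_lt hX0))]
  rcases hB.eq_or_lt with hB0 | hB0
  · have h1 := h (X / (A + 1)) (by positivity)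
    rw [← hB0, zero_div, add_zero, div_mul_eq_mul_div, div_div, le_div_iff₀ (by positivity)] at h1
    nlinarith
  have sA := Real.sqrt_pos.2 hA0
  have sB := Real.sqrt_pos.2 hB0
  have h1 := h (√B / √A) (by positivity)
  have e : (√B / √A * A + B / (√B / √A)) / 2 = √A * √B := by
    have e1 : A = √A * √A := (Real.mul_self_sqrt hA).symm
    have e2 : B = √B * √B := (Real.mul_self_sqrt hB).symm
    generalize √A = s at *
    generalize √B = t at *
    rw [e1, e2]
    field_simp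
    ring
  linarith only [hX, h1, e]

lemma cs_int {α : Type*} [MeasurableSpace α] {μ : Measure α} {u f g : α → ℝ}
    (hu : Integrable u μ) (hf : Integrable f μ) (hg : Integrable g μ)
    (hf0 : ∀ x, 0 ≤ f x) (hg0 : ∀ x, 0 ≤ g x) (h : ∀ x, u x ^ 2 ≤ f x * g x) :
    ∫ x, u x ∂μ ≤ √(∫ x, f x ∂μ) * √(∫ x, g x ∂μ) := by
  refine amgm (integral_nonneg hf0) (integral_nonneg hg0) (fun l hl => ?_)
  rw [← integral_const_mul, ← integral_div, ← integral_add (hf.const_mul l) (hg.div_const l),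
    ← integral_div]
  refine integral_mono hu (((hf.const_mul l).add (hg.div_const l)).div_const 2) (fun x => ?_)
  have h1 := hf0 x
  have h2 := hg0 x
  refine (abs_le_of_sq_le_sq' ((h x).trans ?_) (by positivity)).2
  have e : ((l * f x + g x / l) / 2) ^ 2 = f x * g x + ((l * f x - g x / l) / 2) ^ 2 := by
    field_simp
    ring
  rw [e]
  exact le_add_of_nonneg_right (sq_nonneg _)

variable {V : Type*} [NormedAddCommGroup V]

/-- The bilinear form of the kernel on the finite set `F`. -/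
noncomputable def B (F : Finset V) (a b : V → ℝ) : ℝ :=
  ∑ x ∈ F, ∑ y ∈ F, a x * b y * exp (-dist x y)

/-- The associated norm. -/
noncomputable def N (F : Finset V) (a : V → ℝ) : ℝ := √(B F a a)

lemma N_nonneg (F : Finset V) (a : V → ℝ) : 0 ≤ N F a := Real.sqrt_nonneg _

lemma B_comm (F : Finset V) (a b : V → ℝ) : B F a b = B F b a := by
  unfold B
  rw [Finset.sum_comm]
  refine Finset.sum_congr rfl fun x _ => Finset.sum_congr rfl fun y _ => ?_
  rw [dist_comm]
  ring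

variable [InnerProductSpace ℝ V]

/-- Fourier transform of a finitely supported vector. -/
noncomputable def hat (F : Finset V) (a : V → ℂ) (ξ : V) : ℂ := ∑ x ∈ F, a x * ch ξ x

lemma continuous_hat (F : Finset V) (a : V → ℂ) : Continuous (hat F a) :=
  continuous_finsetSum _ fun x _ => continuous_const.mul (continuous_ch x)

lemma norm_hat_le (F : Finset V) (a : V → ℂ) (ξ : V) : ‖hat F a ξ‖ ≤ ∑ x ∈ F, ‖a x‖ := by
  refine (norm_sum_le _ _).trans (le_of_eq (Finset.sum_congr rfl fun x _ => ?_))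
  rw [norm_mul, norm_ch, mul_one]

lemma hat_mod (F : Finset V) (a : V → ℂ) (ζ ξ : V) :
    hat F (fun x => a x * ch ζ x) ξ = hat F a (ξ + ζ) := by
  unfold hat
  refine Finset.sum_congr rfl fun x _ => ?_
  rw [ch_add_left]
  ring

variable [FiniteDimensional ℝ V] [MeasurableSpace V] [BorelSpace V]

/-- The quadratic form on the Fourier side. -/
noncomputable def Q (F : Finset V) (a : V → ℂ) : ℝ := ∫ ξ, kap ξ * ‖hat F a ξ‖ ^ 2

lemma integrable_mul_hat {k : V → ℝ} (hk : Integrable k) (F : Finset V) (a b : V → ℂ) :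
    Integrable (fun ξ => k ξ * (‖hat F a ξ‖ * ‖hat F b ξ‖)) := by
  refine hk.mul_bdd (c := (∑ x ∈ F, ‖a x‖) * ∑ x ∈ F, ‖b x‖)
    ((continuous_hat F a).norm.mul (continuous_hat F b).norm).aestronglyMeasurable
    (Eventually.of_forall fun ξ => ?_)
  rw [norm_mul, norm_norm, norm_norm]
  exact mul_le_mul (norm_hat_le F a ξ) (norm_hat_le F b ξ) (norm_nonneg _)
    (Finset.sum_nonneg fun _ _ => norm_nonneg _)

lemma integrable_Q (F : Finset V) (a : V → ℂ) :
    Integrable (fun ξ => kap ξ * ‖hat F a ξ‖ ^ 2) := by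
  simpa only [sq] using integrable_mul_hat integrable_kap F a a

lemma Q_nonneg (F : Finset V) (a : V → ℂ) : 0 ≤ Q F a :=
  integral_nonneg fun ξ => mul_nonneg (kap_pos ξ).le (sq_nonneg _)

lemma integrable_mul_ch {k : V → ℂ} (hk : Integrable k) (z : V) :
    Integrable (fun ξ => k ξ * ch ξ z) :=
  hk.mul_bdd (c := 1) (continuous_ch z).aestronglyMeasurable
    (Eventually.of_forall fun ξ => (norm_ch ξ z).le)

lemma rep {k : V → ℂ} (hk : Integrable k) (F : Finset V) (a b : V → ℂ) :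
    ∑ x ∈ F, ∑ y ∈ F, a x * (starRingEnd ℂ) (b y) * ∫ ξ, k ξ * ch ξ (x - y)
      = ∫ ξ, k ξ * (hat F a ξ * (starRingEnd ℂ) (hat F b ξ)) := by
  simp_rw [← integral_const_mul]
  have hi : ∀ x y : V, Integrable
      (fun ξ => a x * (starRingEnd ℂ) (b y) * (k ξ * ch ξ (x - y))) :=
    fun x y => (integrable_mul_ch hk _).const_mul _
  rw [Finset.sum_congr rfl fun x _ => (integral_finsetSum F fun y _ => hi x y).symm,
    ← integral_finsetSum F fun x _ => integrable_finsetSum F fun y _ => hi x y]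
  congr 1
  ext ξ
  unfold hat
  rw [map_sum, Finset.sum_mul_sum, Finset.mul_sum]
  refine Finset.sum_congr rfl fun x _ => ?_
  rw [Finset.mul_sum]
  refine Finset.sum_congr rfl fun y _ => ?_
  rw [ch_sub_right, map_mul]
  ring

lemma norm_rep_le {k : V → ℂ} {c : ℝ} (hc : 0 ≤ c) (hk : ∀ ξ, ‖k ξ‖ ≤ c * kap ξ) (F : Finset V)
    (a b : V → ℂ) :
    ‖∫ ξ, k ξ * (hat F a ξ * (starRingEnd ℂ) (hat F b ξ))‖ ≤ c * (√(Q F a) * √(Q F b)) := by
  have hi := integrable_mul_hat (integrable_kap (V := V)) F a b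
  have h1 : ∫ ξ, kap ξ * (‖hat F a ξ‖ * ‖hat F b ξ‖) ≤ √(Q F a) * √(Q F b) := by
    refine cs_int hi (integrable_Q F a) (integrable_Q F b)
      (fun ξ => mul_nonneg (kap_pos ξ).le (sq_nonneg _))
      (fun ξ => mul_nonneg (kap_pos ξ).le (sq_nonneg _)) (fun ξ => le_of_eq (by ring))
  refine le_trans ?_ (mul_le_mul_of_nonneg_left h1 hc)
  rw [← integral_const_mul]
  refine norm_integral_le_of_norm_le (hi.const_mul c) (Eventually.of_forall fun ξ => ?_)
  rw [norm_mul, norm_mul, RCLike.norm_conj, ← mul_assoc c]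
  exact mul_le_mul_of_nonneg_right (hk ξ) (by positivity)

lemma integrable_kapC : Integrable (fun ξ : V => (kap ξ : ℂ)) := integrable_kap.ofReal

lemma rep_zero (F : Finset V) (a b : V → ℂ) :
    ∑ x ∈ F, ∑ y ∈ F, a x * (starRingEnd ℂ) (b y) * ((exp (-dist x y) : ℝ) : ℂ)
      = ∫ ξ, (kap ξ : ℂ) * (hat F a ξ * (starRingEnd ℂ) (hat F b ξ)) := by
  rw [← rep integrable_kapC]
  simp_rw [kernel_zero, dist_eq_norm]

lemma norm_form_le (F : Finset V) (a b : V → ℂ) :
    ‖∑ x ∈ F, ∑ y ∈ F, a x * (starRingEnd ℂ) (b y) * ((exp (-dist x y) : ℝ) : ℂ)‖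
      ≤ √(Q F a) * √(Q F b) := by
  rw [rep_zero]
  have h := norm_rep_le (k := fun ξ : V => (kap ξ : ℂ)) zero_le_one (fun ξ => by
    rw [Complex.norm_real, Real.norm_of_nonneg (kap_pos ξ).le, one_mul]) F a b
  rwa [one_mul] at h

omit [InnerProductSpace ℝ V] [FiniteDimensional ℝ V] [MeasurableSpace V] [BorelSpace V] in
lemma ofReal_B (F : Finset V) (a b : V → ℝ) : ((B F a b : ℝ) : ℂ) =
    ∑ x ∈ F, ∑ y ∈ F, (a x : ℂ) * (starRingEnd ℂ) (b y : ℂ) * ((exp (-dist x y) : ℝ) : ℂ) := by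
  unfold B
  simp only [Complex.ofReal_sum, Complex.ofReal_mul, Complex.conj_ofReal]

lemma Q_ofReal (F : Finset V) (a : V → ℝ) : Q F (fun x => (a x : ℂ)) = B F a a := by
  apply Complex.ofReal_injective
  rw [ofReal_B, rep_zero]
  unfold Q
  rw [← integral_complex_ofReal]
  congr 1
  ext ξ
  rw [Complex.mul_conj, Complex.normSq_eq_norm_sq]
  push_cast
  rfl

lemma Q_mod (F : Finset V) (a : V → ℂ) (ζ : V) :
    Q F (fun x => a x * ch ζ x) ≤ (1 + ‖ζ‖) ^ (Module.finrank ℝ V + 1) * Q F a := by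
  unfold Q
  simp_rw [hat_mod]
  have h := integral_add_right_eq_self (μ := (volume : Measure V))
    (fun ξ => kap (ξ - ζ) * ‖hat F a ξ‖ ^ 2) ζ
  simp only [add_sub_cancel_right] at h
  rw [h, ← integral_const_mul]
  refine integral_mono_of_nonneg (Eventually.of_forall fun ξ =>
    mul_nonneg (kap_pos _).le (sq_nonneg _)) ((integrable_Q F a).const_mul _)
    (Eventually.of_forall fun ξ => ?_)
  simp only
  rw [← mul_assoc]
  exact mul_le_mul_of_nonneg_right (kap_peetre ξ ζ) (sq_nonneg _)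

lemma B_nonneg (F : Finset V) (a : V → ℝ) : 0 ≤ B F a a := Q_ofReal F a ▸ Q_nonneg F _

lemma N_sq (F : Finset V) (a : V → ℝ) : N F a * N F a = B F a a :=
  Real.mul_self_sqrt (B_nonneg F a)

lemma abs_B_le (F : Finset V) (a b : V → ℝ) : |B F a b| ≤ N F a * N F b := by
  have h := norm_form_le F (fun x => (a x : ℂ)) (fun x => (b x : ℂ))
  rwa [← ofReal_B, Complex.norm_real, Real.norm_eq_abs, Q_ofReal, Q_ofReal] at h

/-- Twisting by small exponentials moves the form by at most one half. -/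
theorem twist : ∃ γ : ℝ, 0 < γ ∧ ∀ η : V, ‖η‖ ≤ γ → ∀ (F : Finset V) (a b : V → ℝ),
    |B F (fun x => exp (-inner ℝ η x) * a x) (fun x => exp (inner ℝ η x) * b x) - B F a b|
      ≤ N F a * N F b / 2 := by
  obtain ⟨γ, hγ, H⟩ := kernel_tw (V := V)
  refine ⟨γ, hγ, fun η hη F a b => ?_⟩
  obtain ⟨k, hk, hk1, hk2⟩ := H η hη
  have h := norm_rep_le (k := fun ξ => k ξ - (kap ξ : ℂ)) (c := 1 / 2) (by norm_num)
    (fun ξ => (hk1 ξ).trans (le_of_eq (by ring))) F (fun x => (a x : ℂ)) (fun x => (b x : ℂ))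
  rw [← rep (k := fun ξ => k ξ - (kap ξ : ℂ)) (hk.sub integrable_kapC), Q_ofReal, Q_ofReal] at h
  have e : ((B F (fun x => exp (-inner ℝ η x) * a x) (fun x => exp (inner ℝ η x) * b x)
      - B F a b : ℝ) : ℂ) = ∑ x ∈ F, ∑ y ∈ F, (a x : ℂ) * (starRingEnd ℂ) (b y : ℂ) *
        ∫ ξ, (k ξ - (kap ξ : ℂ)) * ch ξ (x - y) := by
    unfold B
    rw [← Finset.sum_sub_distrib, Complex.ofReal_sum]
    refine Finset.sum_congr rfl fun x _ => ?_
    rw [← Finset.sum_sub_distrib, Complex.ofReal_sum]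
    refine Finset.sum_congr rfl fun y _ => ?_
    simp_rw [sub_mul]
    rw [integral_sub (integrable_mul_ch hk _) (integrable_mul_ch integrable_kapC _), hk2,
      kernel_zero, Complex.conj_ofReal, ← Complex.ofReal_sub, ← Complex.ofReal_mul,
      ← Complex.ofReal_mul, dist_eq_norm, inner_sub_right]
    congr 1
    have : exp (-‖x - y‖ - (inner ℝ η x - inner ℝ η y))
        = exp (-inner ℝ η x) * exp (inner ℝ η y) * exp (-‖x - y‖) := by
      rw [← exp_add, ← exp_add]; congr 1; ring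
    rw [this]
    ring
  rw [← e, Complex.norm_real, Real.norm_eq_abs] at h
  unfold N
  linarith only [h]

lemma integrable_one_add_pow (f : SchwartzMap V ℂ) (m : ℕ) :
    Integrable (fun ζ : V => (1 + ‖ζ‖) ^ m * ‖f ζ‖) := by
  have h : ∀ ζ : V, (1 + ‖ζ‖) ^ m * ‖f ζ‖
      = ∑ j ∈ Finset.range (m + 1), (m.choose j : ℝ) * (‖ζ‖ ^ j * ‖f ζ‖) := by
    intro ζ
    rw [add_comm, add_pow, Finset.sum_mul]
    refine Finset.sum_congr rfl fun j _ => ?_
    rw [one_pow]
    ring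
  simp_rw [h]
  exact integrable_finsetSum _ fun j _ => (f.integrable_pow_mul volume j).const_mul _

/-- Fourier inversion for smooth compactly supported functions. -/
lemma exists_fourier {g : V → ℝ} (h1 : HasCompactSupport g) (h2 : ContDiff ℝ ∞ g) :
    ∃ h : SchwartzMap V ℂ, ∀ x, (g x : ℂ) = ∫ ζ, h ζ * ch ζ x := by
  have hp : (2 * π : ℝ) ≠ 0 := by have := pi_pos; positivity
  have k1 : HasCompactSupport (fun y : V => ((g ((2 * π : ℝ) • y) : ℝ) : ℂ)) :=
    (h1.comp_smul hp).comp_left (g := fun t : ℝ => (t : ℂ)) (by simp)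
  have k2 : ContDiff ℝ ∞ (fun y : V => ((g ((2 * π : ℝ) • y) : ℝ) : ℂ)) :=
    Complex.ofRealCLM.contDiff.comp (h2.comp (contDiff_id.const_smul _))
  refine ⟨𝓕 (k1.toSchwartzMap k2), fun x => ?_⟩
  have h := (k1.toSchwartzMap k2).continuous.fourierInv_fourier_eq
    (k1.toSchwartzMap k2).integrable (𝓕 (k1.toSchwartzMap k2)).integrable
  have h3 := congrFun h ((2 * π : ℝ)⁻¹ • x)
  rw [Real.fourierInv_eq'] at h3
  have h4 : (k1.toSchwartzMap k2) ((2 * π : ℝ)⁻¹ • x) = (g x : ℂ) := by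
    change ((g ((2 * π : ℝ) • (2 * π : ℝ)⁻¹ • x) : ℝ) : ℂ) = _
    rw [smul_inv_smul₀ hp]
  rw [← h4, ← h3]
  congr 1
  ext ζ
  rw [real_inner_smul_right, mul_inv_cancel_left₀ hp, smul_eq_mul, mul_comm, SchwartzMap.fourier_coe]
  unfold ch
  rw [mul_comm Complex.I]

/-- Multiplication by translates of a smooth bump is uniformly bounded. -/
theorem mult {g : V → ℝ} (h1 : HasCompactSupport g) (h2 : ContDiff ℝ ∞ g) :
    ∃ K : ℝ, 0 ≤ K ∧ ∀ (F : Finset V) (a : V → ℝ) (p : V),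
      N F (fun x => g (x - p) * a x) ≤ K * N F a := by
  obtain ⟨h, hh⟩ := exists_fourier h1 h2
  have hi := integrable_one_add_pow h (Module.finrank ℝ V + 1)
  have hK : 0 ≤ ∫ ζ : V, (1 + ‖ζ‖) ^ (Module.finrank ℝ V + 1) * ‖h ζ‖ :=
    integral_nonneg fun ζ => by positivity
  refine ⟨_, hK, fun F a p => ?_⟩
  have key : ∀ b : V → ℝ, |B F (fun x => g (x - p) * a x) b|
      ≤ (∫ ζ : V, (1 + ‖ζ‖) ^ (Module.finrank ℝ V + 1) * ‖h ζ‖) * (N F a * N F b) := by
    intro b
    have hint : ∀ x y : V, Integrable (fun ζ => (a x : ℂ) * (starRingEnd ℂ) (b y : ℂ) *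
        ((exp (-dist x y) : ℝ) : ℂ) * (h ζ * ch ζ (x - p))) :=
      fun x y => (integrable_mul_ch h.integrable _).const_mul _
    have e : ((B F (fun x => g (x - p) * a x) b : ℝ) : ℂ) = ∫ ζ, h ζ * (starRingEnd ℂ) (ch ζ p) *
        ∑ x ∈ F, ∑ y ∈ F, ((a x : ℂ) * ch ζ x) * (starRingEnd ℂ) (b y : ℂ) *
          ((exp (-dist x y) : ℝ) : ℂ) := by
      have e1 : ((B F (fun x => g (x - p) * a x) b : ℝ) : ℂ) = ∑ x ∈ F, ∑ y ∈ F,
          ∫ ζ, (a x : ℂ) * (starRingEnd ℂ) (b y : ℂ) *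
            ((exp (-dist x y) : ℝ) : ℂ) * (h ζ * ch ζ (x - p)) := by
        rw [ofReal_B]
        refine Finset.sum_congr rfl fun x _ => Finset.sum_congr rfl fun y _ => ?_
        rw [integral_const_mul, ← hh]
        push_cast
        ring
      rw [e1, Finset.sum_congr rfl fun x _ => (integral_finsetSum F fun y _ => hint x y).symm,
        ← integral_finsetSum F fun x _ => integrable_finsetSum F fun y _ => hint x y]
      congr 1
      ext ζ
      rw [Finset.mul_sum]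
      refine Finset.sum_congr rfl fun x _ => ?_
      rw [Finset.mul_sum]
      refine Finset.sum_congr rfl fun y _ => ?_
      rw [ch_sub_right]
      ring
    rw [← Real.norm_eq_abs, ← Complex.norm_real, e, ← integral_mul_const]
    refine norm_integral_le_of_norm_le (hi.mul_const _) (Eventually.of_forall fun ζ => ?_)
    have h3 := norm_form_le F (fun x => (a x : ℂ) * ch ζ x) (fun x => (b x : ℂ))
    have h4 := Q_mod F (fun x => (a x : ℂ)) ζ
    rw [Q_ofReal] at h3 h4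
    have h5 : 1 ≤ (1 + ‖ζ‖) ^ (Module.finrank ℝ V + 1) :=
      one_le_pow₀ (le_add_of_nonneg_right (norm_nonneg ζ))
    have h6 : √(Q F fun x => (a x : ℂ) * ch ζ x)
        ≤ (1 + ‖ζ‖) ^ (Module.finrank ℝ V + 1) * N F a := by
      refine Real.sqrt_le_iff.2 ⟨mul_nonneg (by positivity) (N_nonneg F a), h4.trans ?_⟩
      rw [mul_pow, sq (N F a), N_sq]
      exact mul_le_mul_of_nonneg_right (by linarith only [h5, mul_nonneg_of_nonpos_of_nonpos (Mathlib.Tactic.Linarith.sub_nonpos_of_le h5) (Mathlib.Tactic.Linarith.sub_nonpos_of_le h5)]) (B_nonneg F a)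
    rw [norm_mul, norm_mul, RCLike.norm_conj, norm_ch, mul_one]
    calc _ ≤ ‖h ζ‖ * ((1 + ‖ζ‖) ^ (Module.finrank ℝ V + 1) * N F a * N F b) :=
          mul_le_mul_of_nonneg_left (h3.trans (mul_le_mul_of_nonneg_right h6 (N_nonneg F b)))
            (norm_nonneg _)
      _ = _ := by ring
  have h7 := (le_abs_self _).trans (key fun x => g (x - p) * a x)
  rw [← N_sq, ← mul_assoc] at h7
  rcases (N_nonneg F fun x => g (x - p) * a x).eq_or_lt with h8 | h8
  · rw [← h8]; exact mul_nonneg hK (N_nonneg F a)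
  · exact le_of_mul_le_mul_right h7 h8

/-- Pairing with translates of a smooth bump is uniformly bounded. -/
theorem func {g : V → ℝ} (h1 : HasCompactSupport g) (h2 : ContDiff ℝ ∞ g) :
    ∃ K : ℝ, 0 ≤ K ∧ ∀ (F : Finset V) (a : V → ℝ) (p : V),
      |∑ x ∈ F, g (x - p) * a x| ≤ K * N F a := by
  obtain ⟨h, hh⟩ := exists_fourier h1 h2
  obtain ⟨c, hc, hc2⟩ := inv_kap_le (V := V)
  have hi := integrable_one_add_pow h (Module.finrank ℝ V + 1)
  have hb : ∀ ζ, ‖h ζ‖ ≤ SchwartzMap.seminorm ℝ 0 0 h := fun ζ => h.norm_le_seminorm ℝ ζ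
  have hf : Integrable (fun ζ : V => (kap ζ)⁻¹ * ‖h ζ‖ ^ 2) := by
    refine Integrable.mono' ((hi.const_mul c).mul_const (SchwartzMap.seminorm ℝ 0 0 h))
      ((continuous_kap.inv₀ fun ζ => (kap_pos ζ).ne').mul
        (h.continuous.norm.pow 2)).aestronglyMeasurable (Eventually.of_forall fun ζ => ?_)
    have := kap_pos ζ
    rw [Real.norm_of_nonneg (by positivity), sq, ← mul_assoc, ← mul_assoc]
    exact mul_le_mul (mul_le_mul_of_nonneg_right (hc2 ζ) (norm_nonneg _)) (hb ζ) (norm_nonneg _)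
      (by positivity)
  refine ⟨√(∫ ζ : V, (kap ζ)⁻¹ * ‖h ζ‖ ^ 2), Real.sqrt_nonneg _, fun F a p => ?_⟩
  have e : ((∑ x ∈ F, g (x - p) * a x : ℝ) : ℂ)
      = ∫ ζ, h ζ * (starRingEnd ℂ) (ch ζ p) * hat F (fun x => (a x : ℂ)) ζ := by
    have e1 : ((∑ x ∈ F, g (x - p) * a x : ℝ) : ℂ)
        = ∑ x ∈ F, ∫ ζ, (h ζ * ch ζ (x - p)) * (a x : ℂ) := by
      rw [Complex.ofReal_sum]
      refine Finset.sum_congr rfl fun x _ => ?_
      rw [integral_mul_const, ← hh, Complex.ofReal_mul]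
    rw [e1, ← integral_finsetSum F fun x _ => (integrable_mul_ch h.integrable _).mul_const _]
    congr 1
    ext ζ
    unfold hat
    rw [Finset.mul_sum]
    refine Finset.sum_congr rfl fun x _ => ?_
    rw [ch_sub_right]
    ring
  have hu : Integrable (fun ζ : V => ‖h ζ‖ * ‖hat F (fun x => (a x : ℂ)) ζ‖) :=
    h.integrable.norm.mul_bdd (continuous_hat F _).norm.aestronglyMeasurable
      (Eventually.of_forall fun ζ => by rw [norm_norm]; exact norm_hat_le F _ ζ)
  have h3 := cs_int hu hf (integrable_Q F fun x => (a x : ℂ))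
    (fun ζ => mul_nonneg (inv_pos.2 (kap_pos ζ)).le (sq_nonneg _))
    (fun ζ => mul_nonneg (kap_pos ζ).le (sq_nonneg _))
    (fun ζ => le_of_eq (by have := (kap_pos ζ).ne'; field_simp))
  have h4 := Q_ofReal F a
  unfold Q at h4
  rw [h4] at h3
  rw [← Real.norm_eq_abs, ← Complex.norm_real, e]
  refine le_trans (norm_integral_le_of_norm_le hu (Eventually.of_forall fun ζ => ?_)) h3
  rw [norm_mul, norm_mul, RCLike.norm_conj, norm_ch, mul_one]

end Pool.Agent.Work.MP_6e5b56_gt.Hedge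
end

-- merged part: Pool.Agent.Work.MP_6e5b56_gt.Hedge.Green
section
/-! The inverse similarity matrix of a finite set as an operator on functions, and finite
magnitude. -/

set_option autoImplicit false

open MeasureTheory Set Filter Real Topology
open scoped ContDiff

namespace Pool.Agent.Work.MP_6e5b56_gt.Hedge

variable {V : Type*} [NormedAddCommGroup V]

lemma B_congr {F : Finset V} {a a' b b' : V → ℝ} (ha : ∀ x ∈ F, a x = a' x)
    (hb : ∀ x ∈ F, b x = b' x) : B F a b = B F a' b' :=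
  Finset.sum_congr rfl fun x hx => Finset.sum_congr rfl fun y hy => by rw [ha x hx, hb y hy]

lemma N_congr {F : Finset V} {a a' : V → ℝ} (ha : ∀ x ∈ F, a x = a' x) : N F a = N F a' := by
  unfold N
  rw [B_congr ha ha]

lemma N_const_mul (F : Finset V) {c : ℝ} (hc : 0 ≤ c) (a : V → ℝ) :
    N F (fun x => c * a x) = c * N F a := by
  unfold N
  have : B F (fun x => c * a x) (fun x => c * a x) = c ^ 2 * B F a a := by
    unfold B
    simp_rw [Finset.mul_sum]
    refine Finset.sum_congr rfl fun x _ => Finset.sum_congr rfl fun y _ => by ring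
  rw [this, Real.sqrt_mul (sq_nonneg c), Real.sqrt_sq hc]

/-- The form as a linear functional in the first slot. -/
noncomputable def Bl (F : Finset V) (b : V → ℝ) : (V → ℝ) →ₗ[ℝ] ℝ where
  toFun a := B F a b
  map_add' a a' := by
    simp only [B, Pi.add_apply, add_mul, Finset.sum_add_distrib]
  map_smul' c a := by
    simp only [B, Pi.smul_apply, smul_eq_mul, RingHom.id_apply, Finset.mul_sum, mul_assoc]

/-- Summation over `F` as a linear functional. -/
noncomputable def Sl (F : Finset V) : (V → ℝ) →ₗ[ℝ] ℝ where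
  toFun a := ∑ x ∈ F, a x
  map_add' a a' := by simp only [Pi.add_apply, Finset.sum_add_distrib]
  map_smul' c a := by simp only [Pi.smul_apply, smul_eq_mul, RingHom.id_apply, Finset.mul_sum]

/-- The similarity matrix. -/
noncomputable def Z (S : Finset V) : Matrix ↥S ↥S ℝ :=
  Matrix.of (fun x y : ↥S => Real.exp (-dist x.1 y.1))

variable [DecidableEq V]

/-- Magnitude of a finite set. -/
noncomputable def magF (S : Finset V) : ℝ := ∑ i : ↥S, ∑ j : ↥S, (Z S)⁻¹ i j

/-- Extension by zero. -/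
def ext0 (S : Finset V) (v : ↥S → ℝ) (x : V) : ℝ := if h : x ∈ S then v ⟨x, h⟩ else 0

omit [NormedAddCommGroup V] in
lemma ext0_val (S : Finset V) (v : ↥S → ℝ) (x : ↥S) : ext0 S v x.1 = v x := by
  simp [ext0]

omit [NormedAddCommGroup V] in
lemma ext0_out {S : Finset V} (v : ↥S → ℝ) {x : V} (hx : x ∉ S) : ext0 S v x = 0 := by
  simp [ext0, hx]

lemma B_ext0 {F S : Finset V} (hS : S ⊆ F) (v : ↥S → ℝ) {a : V → ℝ}
    (ha : ∀ y ∈ F, y ∉ S → a y = 0) :
    B F (ext0 S v) a = ∑ y : ↥S, (Z S).mulVec v y * a y.1 := by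
  rw [B_comm]
  unfold B
  rw [← Finset.sum_subset hS (fun y hy hy' => by simp [ha y hy hy']), ← Finset.sum_coe_sort S]
  refine Finset.sum_congr rfl fun y _ => ?_
  rw [← Finset.sum_subset hS (fun x _ hx' => by simp [ext0_out v hx']), ← Finset.sum_coe_sort S]
  simp only [Matrix.mulVec, dotProduct, Z, Matrix.of_apply, ext0_val, Finset.sum_mul]
  exact Finset.sum_congr rfl fun x _ => by ring

/-- The inverse similarity matrix, acting on functions and extended by zero. -/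
noncomputable def G (S : Finset V) : (V → ℝ) →ₗ[ℝ] (V → ℝ) where
  toFun f := ext0 S ((Z S)⁻¹.mulVec fun y : ↥S => f y.1)
  map_add' f f' := by
    ext x
    have : (fun y : ↥S => (f + f') y.1) = (fun y : ↥S => f y.1) + fun y : ↥S => f' y.1 := rfl
    rw [this, Matrix.mulVec_add]
    simp only [ext0, Pi.add_apply]
    split_ifs <;> simp
  map_smul' c f := by
    ext x
    have : (fun y : ↥S => (c • f) y.1) = c • (fun y : ↥S => f y.1) := rfl
    rw [this, Matrix.mulVec_smul]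
    simp only [ext0, Pi.smul_apply, RingHom.id_apply]
    split_ifs <;> simp

lemma G_out {S : Finset V} (f : V → ℝ) {x : V} (hx : x ∉ S) : G S f x = 0 := ext0_out _ hx

lemma G_zero {S : Finset V} {f : V → ℝ} (hf : ∀ x ∈ S, f x = 0) : G S f = 0 := by
  have : (fun y : ↥S => f y.1) = 0 := funext fun y => hf y.1 y.2
  ext x
  change ext0 S ((Z S)⁻¹.mulVec fun y : ↥S => f y.1) x = 0
  rw [this, Matrix.mulVec_zero]
  simp [ext0]

lemma sum_G_one {F S : Finset V} (hS : S ⊆ F) : ∑ x ∈ F, G S 1 x = magF S := by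
  rw [← Finset.sum_subset hS (fun x _ hx' => G_out _ hx'), ← Finset.sum_coe_sort S]
  refine Finset.sum_congr rfl fun x _ => ?_
  change ext0 S ((Z S)⁻¹.mulVec fun y : ↥S => (1 : V → ℝ) y.1) x.1 = _
  rw [ext0_val]
  simp [Matrix.mulVec, dotProduct]

variable [InnerProductSpace ℝ V] [FiniteDimensional ℝ V] [MeasurableSpace V] [BorelSpace V]

lemma det_Z_ne_zero (S : Finset V) : (Z S).det ≠ 0 := by
  intro h
  obtain ⟨v, hv, hv0⟩ := Matrix.exists_mulVec_eq_zero_iff.2 h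
  apply hv
  ext x
  have hN : N S (ext0 S v) = 0 := by
    unfold N
    rw [B_ext0 (Finset.Subset.refl S) v (fun y _ hy => ext0_out v hy), hv0]
    simp
  have hs : ((S.erase x.1 : Finset V) : Set V)ᶜ ∈ 𝓝 x.1 :=
    (S.erase x.1).finite_toSet.isClosed.isOpen_compl.mem_nhds (by simp)
  obtain ⟨g, g1, g2, g3, -, g5⟩ := exists_contDiff_tsupport_subset (n := ⊤) hs
  obtain ⟨K, -, hK⟩ := func g2 g3
  have h1 := hK S (ext0 S v) 0
  rw [hN, mul_zero, abs_nonpos_iff, Finset.sum_eq_single x.1] at h1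
  · simpa [g5, ext0_val] using h1
  · intro y hy hyx
    have : g y = 0 := by
      by_contra hg
      exact g1 (subset_tsupport g hg) (by simp [hy, hyx])
    simp [this]
  · intro hx
    exact absurd x.2 hx

lemma B_G {F S : Finset V} (hS : S ⊆ F) (f : V → ℝ) {a : V → ℝ}
    (ha : ∀ y ∈ F, y ∉ S → a y = 0) : B F (G S f) a = ∑ y ∈ F, f y * a y := by
  change B F (ext0 S ((Z S)⁻¹.mulVec fun y : ↥S => f y.1)) a = _
  rw [B_ext0 hS _ ha, Matrix.mulVec_mulVec,
    Matrix.mul_nonsing_inv _ (IsUnit.mk0 _ (det_Z_ne_zero S)), Matrix.one_mulVec,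
    ← Finset.sum_subset hS (fun y hy hy' => by simp [ha y hy hy']), ← Finset.sum_coe_sort S]

lemma B_G_one {F S : Finset V} (hS : S ⊆ F) {a : V → ℝ}
    (ha : ∀ y ∈ F, y ∉ S → a y = 0) : B F (G S 1) a = ∑ y ∈ F, a y := by
  rw [B_G hS 1 ha]
  simp

lemma magF_eq (S : Finset V) : magF S = B S (G S 1) (G S 1) := by
  rw [B_G_one (Finset.Subset.refl S) (fun y _ hy => G_out _ hy), sum_G_one (Finset.Subset.refl S)]

lemma magF_nonneg (S : Finset V) : 0 ≤ magF S := magF_eq S ▸ B_nonneg _ _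

lemma magF_mono {S S' : Finset V} (h : S ⊆ S') : magF S ≤ magF S' := by
  have h1 := (le_abs_self _).trans (abs_B_le S' (G S' 1) (G S 1))
  have h2 : B S' (G S' 1) (G S 1) = magF S := by
    rw [B_G_one (Finset.Subset.refl S') (fun y hy hy' => absurd hy hy'), sum_G_one h]
  have h3 : B S' (G S 1) (G S 1) = magF S := by
    rw [B_G_one h (fun y _ hy => G_out _ hy), sum_G_one h]
  have h4 := N_sq S' (G S 1)
  have h5 := N_sq S' (G S' 1)
  rw [← magF_eq] at h5
  rw [h3] at h4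
  rw [h2] at h1
  linarith only [h1, h4, h5, sq_nonneg (N S' (G S' 1) - N S' (G S 1)), sq_nonneg (N S' ((G S') (1 : V → ℝ)) - N S' ((G S) (1 : V → ℝ)))]

lemma magF_bdd {X : Set V} (hX : Bornology.IsBounded X) :
    ∃ M : ℝ, 0 ≤ M ∧ ∀ S : Finset V, (↑S : Set V) ⊆ X → magF S ≤ M := by
  obtain ⟨R, hR0, hR⟩ := hX.subset_closedBall_lt 0 (0 : V)
  let g : ContDiffBump (0 : V) := ⟨R, R + 1, hR0, by linarith⟩
  obtain ⟨K, hK0, hK⟩ := func g.hasCompactSupport g.contDiff
  refine ⟨K ^ 2, sq_nonneg K, fun S hS => ?_⟩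
  have h1 := (le_abs_self _).trans (hK S (G S 1) 0)
  have h2 : ∑ x ∈ S, g (x - 0) * G S 1 x = magF S := by
    rw [← sum_G_one (Finset.Subset.refl S)]
    refine Finset.sum_congr rfl fun x hx => ?_
    rw [sub_zero, g.one_of_mem_closedBall (hR (hS hx)), one_mul]
  have h3 := N_sq S (G S 1)
  rw [← magF_eq] at h3
  rw [h2] at h1
  linarith only [h1, h3, sq_nonneg (K - N S (G S 1)), sq_nonneg (K - N S ((G S) (1 : V → ℝ)))]

omit [DecidableEq V] in
lemma exists_bump : ∃ φ : V → ℝ, HasCompactSupport φ ∧ ContDiff ℝ ∞ φ ∧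
    (∀ x, 1 ≤ ‖x‖ → φ x = 0) ∧ ∫ x, φ x = 1 := by
  let f : ContDiffBump (0 : V) := ⟨1 / 2, 1, by norm_num, by norm_num⟩
  refine ⟨f.normed volume, f.hasCompactSupport_normed, f.contDiff_normed, fun x hx => ?_,
    f.integral_normed⟩
  by_contra h
  have : x ∈ Function.support (f.normed volume) := h
  rw [f.support_normed_eq, mem_ball_zero_iff] at this
  exact absurd this (not_lt.2 hx)

/-- Partition of unity by translates of a bump. -/
lemma part {φ : V → ℝ} (h1 : HasCompactSupport φ) (h2 : ContDiff ℝ ∞ φ) (h3 : ∫ x, φ x = 1)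
    (F : Finset V) (L : (V → ℝ) →ₗ[ℝ] ℝ) (hL : ∀ f : V → ℝ, (∀ x ∈ F, f x = 0) → L f = 0)
    {M : V → ℝ} (hM : Integrable M) (h : ∀ q, |L (fun x => φ (x - q))| ≤ M q) :
    |L 1| ≤ ∫ q, M q := by
  have e : ∀ f : V → ℝ, L f = ∑ x ∈ F, f x * L (Pi.single x 1) := by
    intro f
    have h0 := hL (f - ∑ x ∈ F, f x • (Pi.single x 1 : V → ℝ)) (fun y hy => by
      simp [Finset.sum_apply, Pi.single_apply, hy])
    rw [map_sub, map_sum, sub_eq_zero] at h0
    simpa using h0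
  have hi : ∀ x : V, Integrable (fun q => φ (x - q)) := fun x =>
    (h2.continuous.integrable_of_hasCompactSupport h1).comp_sub_left x
  have e2 : L 1 = ∫ q, L (fun x => φ (x - q)) := by
    simp_rw [e (fun x => φ (x - _))]
    rw [integral_finsetSum F fun x _ => (hi x).mul_const _, e 1]
    refine Finset.sum_congr rfl fun x _ => ?_
    rw [integral_mul_const, integral_sub_left_eq_self φ volume x, h3]
    rfl
  rw [e2, ← Real.norm_eq_abs]
  exact norm_integral_le_of_norm_le hM (Eventually.of_forall h)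

omit [DecidableEq V] [MeasurableSpace V] [BorelSpace V] in
lemma net {γ : ℝ} (hγ : 0 < γ) : ∃ c : ℝ, 0 < c ∧ ∃ T : Finset V, (∀ η ∈ T, ‖η‖ ≤ γ) ∧
    ∀ z : V, ∃ η ∈ T, inner ℝ η z ≤ -(c * ‖z‖) := by
  classical
  obtain ⟨T, hT, hTf, hc⟩ := (isCompact_closedBall (0 : V) γ).finite_cover_balls
    (e := γ / 2) (by positivity)
  refine ⟨γ / 2, by positivity, hTf.toFinset, fun η hη => ?_, fun z => ?_⟩
  · simpa using hT (hTf.mem_toFinset.1 hη)
  · have hz : (-(γ / ‖z‖)) • z ∈ Metric.closedBall (0 : V) γ := by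
      rw [mem_closedBall_zero_iff, norm_smul, norm_neg, Real.norm_of_nonneg (by positivity)]
      rcases (norm_nonneg z).eq_or_lt with h | h
      · rw [← h, mul_zero]; exact hγ.le
      · rw [div_mul_cancel₀ _ h.ne']
    obtain ⟨η, hη, hη2⟩ := mem_iUnion₂.1 (hc hz)
    refine ⟨η, hTf.mem_toFinset.2 hη, ?_⟩
    have h1 : inner ℝ η z = inner ℝ ((-(γ / ‖z‖)) • z) z + inner ℝ (η - (-(γ / ‖z‖)) • z) z := by
      rw [← inner_add_left]; congr 1; abel
    have h2 : inner ℝ ((-(γ / ‖z‖)) • z) z = -(γ * ‖z‖) := by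
      rw [real_inner_smul_left, real_inner_self_eq_norm_sq]
      rcases (norm_nonneg z).eq_or_lt with h | h
      · rw [← h]; simp
      · field_simp
    have h3 : inner ℝ (η - (-(γ / ‖z‖)) • z) z ≤ γ / 2 * ‖z‖ := by
      refine (real_inner_le_norm _ _).trans (mul_le_mul_of_nonneg_right ?_ (norm_nonneg z))
      rw [Metric.mem_ball, dist_comm, dist_eq_norm] at hη2
      exact hη2.le
    linarith only [h1, h2, h3]

lemma unif {ι : Type*} {T : Finset ι} {P : ι → ℝ → Prop}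
    (hP : ∀ η K K', K ≤ K' → P η K → P η K') (h : ∀ η ∈ T, ∃ K, P η K) :
    ∃ K, 0 ≤ K ∧ ∀ η ∈ T, P η K := by
  choose! K hK using h
  refine ⟨∑ η ∈ T, |K η|, Finset.sum_nonneg fun _ _ => abs_nonneg _, fun η hη => ?_⟩
  exact hP η _ _ ((le_abs_self _).trans
    (Finset.single_le_sum (f := fun η => |K η|) (fun _ _ => abs_nonneg _) hη)) (hK η hη)

omit [DecidableEq V] in
lemma integrable_exp_neg_norm {c : ℝ} (hc : 0 < c) :
    Integrable (fun z : V => exp (-(c * ‖z‖))) := by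
  set m := Module.finrank ℝ V + 1 with hm
  have h := (integrable_one_add_norm (E := V) (μ := volume) (r := (m : ℝ))
    (by rw [hm]; push_cast; linarith only [])).const_mul (exp c * m.factorial / c ^ m)
  refine h.mono' (by fun_prop : Continuous fun z : V => exp (-(c * ‖z‖))).aestronglyMeasurable
    (Eventually.of_forall fun z => ?_)
  have h0 : 0 < 1 + ‖z‖ := by positivity
  have h1 := Real.pow_div_factorial_le_exp (c * (1 + ‖z‖)) (by positivity) m
  rw [Real.norm_of_nonneg (exp_pos _).le, rpow_neg h0.le, rpow_natCast, ← div_eq_mul_inv, div_div,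
    le_div_iff₀ (by positivity), ← mul_pow]
  rw [div_le_iff₀ (by positivity)] at h1
  have h2 : exp (-(c * ‖z‖)) * exp (c * (1 + ‖z‖)) = exp c := by
    rw [← exp_add]; congr 1; ring
  calc _ ≤ exp (-(c * ‖z‖)) * (exp (c * (1 + ‖z‖)) * m.factorial) :=
        mul_le_mul_of_nonneg_left h1 (exp_pos _).le
    _ = _ := by rw [← mul_assoc, h2]

end Pool.Agent.Work.MP_6e5b56_gt.Hedge
end

-- merged part: Pool.Agent.Work.MP_6e5b56_gt.Hedge.Loc
section
/-! Exponential decay of the inverse similarity matrix, uniformly local bounds for weightings and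
locality of the magnitude density. -/

set_option autoImplicit false

open MeasureTheory Set Filter Real Topology
open scoped ContDiff

namespace Pool.Agent.Work.MP_6e5b56_gt.Hedge

variable {V : Type*} [NormedAddCommGroup V] [InnerProductSpace ℝ V]

/-- The twisting estimate for all exponents of norm at most `γ`. -/
def Tw (V : Type*) [NormedAddCommGroup V] [InnerProductSpace ℝ V] (γ : ℝ) : Prop :=
  ∀ η : V, ‖η‖ ≤ γ → ∀ (F : Finset V) (a b : V → ℝ),
    |B F (fun x => exp (-inner ℝ η x) * a x) (fun x => exp (inner ℝ η x) * b x) - B F a b|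
      ≤ N F a * N F b / 2

lemma smooth_tw {g : V → ℝ} (h2 : ContDiff ℝ ∞ g) (η : V) :
    ContDiff ℝ ∞ (fun x => g x * exp (inner ℝ η x)) :=
  h2.mul (contDiff_const.inner ℝ contDiff_id).exp

variable [DecidableEq V] [FiniteDimensional ℝ V] [MeasurableSpace V] [BorelSpace V]

/-- Exponentially weighted bound for the inverse matrix applied to a bump. -/
lemma dec {γ : ℝ} (hγ : Tw V γ) {g : V → ℝ} (h1 : HasCompactSupport g) (h2 : ContDiff ℝ ∞ g)
    {η : V} (hη : ‖η‖ ≤ γ) : ∃ K : ℝ, ∀ F S : Finset V, S ⊆ F → ∀ p : V,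
      N F (fun x => exp (inner ℝ η x) * G S (fun y => g (y - p)) x) ≤ K * exp (inner ℝ η p) := by
  obtain ⟨K, hK0, hK⟩ := func (h1.mul_right (f' := fun x => exp (inner ℝ η x))) (smooth_tw h2 η)
  refine ⟨2 * K, fun F S hS p => ?_⟩
  set w : V → ℝ := fun x => exp (inner ℝ η x) * G S (fun y => g (y - p)) x with hw
  have h3 := hγ η hη F w w
  have h4 : B F (fun x => exp (-inner ℝ η x) * w x) (fun x => exp (inner ℝ η x) * w x)
      = exp (inner ℝ η p) * ∑ x ∈ F, (g (x - p) * exp (inner ℝ η (x - p))) * w x := by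
    rw [B_congr (a' := G S (fun y => g (y - p))) (fun x _ => by
      simp only [hw]; rw [← mul_assoc, ← exp_add]; simp) (fun _ _ => rfl),
      B_G hS _ (fun y _ hy => by simp only [hw]; rw [G_out _ hy]; simp), Finset.mul_sum]
    refine Finset.sum_congr rfl fun x _ => ?_
    have : exp (inner ℝ η x) = exp (inner ℝ η p) * exp (inner ℝ η (x - p)) := by
      rw [← exp_add, inner_sub_right]; congr 1; ring
    rw [this]
    ring
  have h5 := mul_le_mul_of_nonneg_left ((le_abs_self _).trans (hK F w p))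
    (exp_pos (inner ℝ η p)).le
  have h6 := (abs_le.1 h3).1
  rw [h4, ← N_sq] at h6
  have h7 : N F w * N F w ≤ 2 * K * exp (inner ℝ η p) * N F w := by
    simp only [Pi.mul_apply] at h5
    linarith only [h6, h5]
  rcases (N_nonneg F w).eq_or_lt with h8 | h8
  · rw [← h8]; positivity
  · exact le_of_mul_le_mul_right h7 h8

lemma ul_pt {γ : ℝ} (hγ0 : 0 < γ) (hγ : Tw V γ) {g φ : V → ℝ} (h1 : HasCompactSupport g)
    (h2 : ContDiff ℝ ∞ g) (k1 : HasCompactSupport φ) (k2 : ContDiff ℝ ∞ φ) :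
    ∃ c : ℝ, 0 < c ∧ ∃ K : ℝ, 0 ≤ K ∧ ∀ F S : Finset V, S ⊆ F → ∀ r q : V,
      N F (fun x => g (x - r) * G S (fun y => φ (y - q)) x) ≤ K * exp (-(c * ‖q - r‖)) := by
  obtain ⟨c, hc, T, hT, hz⟩ := net (V := V) hγ0
  obtain ⟨K, hK0, hK⟩ := unif (T := T) (P := fun η K => ∀ F S : Finset V, S ⊆ F → ∀ r q : V,
      N F (fun x => g (x - r) * G S (fun y => φ (y - q)) x) ≤ K * exp (inner ℝ η (q - r)))
    (fun η K K' hKK h F S hS r q =>
      (h F S hS r q).trans (mul_le_mul_of_nonneg_right hKK (exp_pos _).le))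
    (fun η hη => by
      obtain ⟨K1, hK1, H1⟩ := mult (h1.mul_right (f' := fun x => exp (inner ℝ (-η) x)))
        (smooth_tw h2 (-η))
      obtain ⟨K2, H2⟩ := dec hγ k1 k2 (hT η hη)
      refine ⟨K1 * K2, fun F S hS r q => ?_⟩
      have e : N F (fun x => g (x - r) * G S (fun y => φ (y - q)) x)
          = N F (fun x => exp (-inner ℝ η r) * ((g (x - r) * exp (inner ℝ (-η) (x - r))) *
            (exp (inner ℝ η x) * G S (fun y => φ (y - q)) x))) := by
        refine N_congr fun x _ => ?_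
        have h3 : exp (inner ℝ (-η) (x - r)) * exp (inner ℝ η x) * exp (-inner ℝ η r) = 1 := by
          rw [← exp_add, ← exp_add, inner_neg_left, inner_sub_right, exp_eq_one_iff]; ring
        linear_combination (-(g (x - r) * G S (fun y => φ (y - q)) x)) * h3
      rw [e, N_const_mul F (exp_pos _).le, inner_sub_right, sub_eq_add_neg, exp_add]
      have h4 := (H1 F _ r).trans (mul_le_mul_of_nonneg_left (H2 F S hS q) hK1)
      simp only [Pi.mul_apply] at h4
      refine (mul_le_mul_of_nonneg_left h4 (exp_pos _).le).trans (le_of_eq (by ring)))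
  refine ⟨c, hc, K, hK0, fun F S hS r q => ?_⟩
  obtain ⟨η, hη, hη2⟩ := hz (q - r)
  exact (hK η hη F S hS r q).trans (mul_le_mul_of_nonneg_left (exp_le_exp.2 hη2) hK0)

/-- Weightings are uniformly locally bounded. -/
lemma ul {γ : ℝ} (hγ0 : 0 < γ) (hγ : Tw V γ) {g : V → ℝ} (h1 : HasCompactSupport g)
    (h2 : ContDiff ℝ ∞ g) : ∃ K : ℝ, 0 ≤ K ∧ ∀ F S : Finset V, S ⊆ F → ∀ r : V,
      N F (fun x => g (x - r) * G S 1 x) ≤ K := by
  obtain ⟨φ, k1, k2, -, k4⟩ := exists_bump (V := V)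
  obtain ⟨c, hc, K, hK0, hK⟩ := ul_pt hγ0 hγ h1 h2 k1 k2
  have hI : 0 ≤ ∫ z : V, exp (-(c * ‖z‖)) := integral_nonneg fun z => (exp_pos _).le
  refine ⟨K * ∫ z : V, exp (-(c * ‖z‖)), mul_nonneg hK0 hI, fun F S hS r => ?_⟩
  set b : V → ℝ := fun x => g (x - r) * G S 1 x with hb
  have h := part k1 k2 k4 F (Bl F b ∘ₗ LinearMap.mulLeft ℝ (fun x => g (x - r)) ∘ₗ G S)
    (fun f hf => by
      simp only [LinearMap.comp_apply]
      rw [G_zero (fun x hx => hf x (hS hx)), map_zero, map_zero])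
    (M := fun q => K * exp (-(c * ‖q - r‖)) * N F b)
    ((((integrable_exp_neg_norm hc).comp_sub_right r).const_mul K).mul_const _)
    (fun q => (abs_B_le F _ b).trans (mul_le_mul_of_nonneg_right (hK F S hS r q) (N_nonneg F b)))
  rw [integral_mul_const, integral_const_mul,
    integral_sub_right_eq_self (fun z : V => exp (-(c * ‖z‖))) r] at h
  have h3 : B F b b ≤ _ := (le_abs_self _).trans h
  rw [← N_sq] at h3
  rcases (N_nonneg F b).eq_or_lt with h8 | h8
  · rw [← h8]; positivity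
  · exact le_of_mul_le_mul_right h3 h8

lemma loc_pt {φ : V → ℝ} (k1 : HasCompactSupport φ) (k2 : ContDiff ℝ ∞ φ) :
    ∃ c : ℝ, 0 < c ∧ ∃ K : ℝ, 0 ≤ K ∧ ∀ F S S' : Finset V, S ⊆ F → S' ⊆ F → ∀ r p : V,
      |B F (fun x => φ (x - r) * G S' 1 x) (G S (fun y => φ (y - p)))|
        ≤ K * exp (-(c * ‖r - p‖)) := by
  obtain ⟨γ, hγ0, hγ⟩ := twist (V := V)
  obtain ⟨c, hc, T, hT, hz⟩ := net (V := V) hγ0
  obtain ⟨K, hK0, hK⟩ := unif (T := T)
    (P := fun η K => ∀ F S S' : Finset V, S ⊆ F → S' ⊆ F → ∀ r p : V,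
      |B F (fun x => φ (x - r) * G S' 1 x) (G S (fun y => φ (y - p)))|
        ≤ K * exp (inner ℝ η (r - p)))
    (fun η K K' hKK h F S S' hS hS' r q =>
      (h F S S' hS hS' r q).trans (mul_le_mul_of_nonneg_right hKK (exp_pos _).le))
    (fun η hη => by
      obtain ⟨K1, hK1, H1⟩ := ul hγ0 hγ (k1.mul_right (f' := fun x => exp (inner ℝ η x)))
        (smooth_tw k2 η)
      obtain ⟨K2, H2⟩ := dec hγ k1 k2 (η := -η) (by rw [norm_neg]; exact hT η hη)
      refine ⟨2 * (K1 * K2), fun F S S' hS hS' r p => ?_⟩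
      set a : V → ℝ := fun x => exp (inner ℝ η r) *
        ((φ (x - r) * exp (inner ℝ η (x - r))) * G S' 1 x) with ha
      set b : V → ℝ := fun x => exp (inner ℝ (-η) x) * G S (fun y => φ (y - p)) x with hb
      have h3 := hγ η (hT η hη) F a b
      have h4 := abs_B_le F a b
      have e : B F (fun x => exp (-inner ℝ η x) * a x) (fun x => exp (inner ℝ η x) * b x)
          = B F (fun x => φ (x - r) * G S' 1 x) (G S (fun y => φ (y - p))) := by
        refine B_congr (fun x _ => ?_) (fun x _ => ?_)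
        · have h5 : exp (-inner ℝ η x) * exp (inner ℝ η r) * exp (inner ℝ η (x - r)) = 1 := by
            rw [← exp_add, ← exp_add, inner_sub_right, exp_eq_one_iff]; ring
          simp only [ha]
          linear_combination (φ (x - r) * G S' 1 x) * h5
        · simp only [hb]
          rw [← mul_assoc, ← exp_add, inner_neg_left]
          simp
      rw [e] at h3
      have h6 : N F a ≤ exp (inner ℝ η r) * K1 := by
        rw [ha, N_const_mul F (exp_pos _).le]
        exact mul_le_mul_of_nonneg_left (H1 F S' hS' r) (exp_pos _).le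
      have h7 := mul_le_mul h6 (H2 F S hS p) (N_nonneg _ _) (by positivity)
      have h8 : exp (inner ℝ η r) * K1 * (K2 * exp (inner ℝ (-η) p))
          = K1 * K2 * exp (inner ℝ η (r - p)) := by
        rw [inner_sub_right, sub_eq_add_neg, exp_add, inner_neg_left]; ring
      have h9 := mul_nonneg (N_nonneg F a) (N_nonneg F b)
      rw [h8] at h7
      have h10 := abs_sub_abs_le_abs_sub
        (B F (fun x => φ (x - r) * G S' 1 x) (G S (fun y => φ (y - p)))) (B F a b)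
      linarith only [h3, h4, h7, h9, h10])
  refine ⟨c, hc, K, hK0, fun F S S' hS hS' r p => ?_⟩
  obtain ⟨η, hη, hη2⟩ := hz (r - p)
  exact (hK η hη F S S' hS hS' r p).trans (mul_le_mul_of_nonneg_left (exp_le_exp.2 hη2) hK0)

/-- Locality: adding points far from `p` changes the density at `p` exponentially little. -/
lemma loc {φ : V → ℝ} (k1 : HasCompactSupport φ) (k2 : ContDiff ℝ ∞ φ)
    (k3 : ∀ x, 1 ≤ ‖x‖ → φ x = 0) (k4 : ∫ x, φ x = 1) :
    ∃ c : ℝ, 0 < c ∧ ∃ C : ℝ, 0 ≤ C ∧ ∀ F S S' : Finset V, S ⊆ S' → S' ⊆ F → ∀ (p : V) (R : ℝ),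
      (∀ x ∈ S', x ∉ S → R ≤ dist p x) →
      |∑ x ∈ F, G S' (fun y => φ (y - p)) x - ∑ x ∈ F, G S (fun y => φ (y - p)) x|
        ≤ C * exp (-(c * R)) := by
  obtain ⟨c, hc, K, hK0, hK⟩ := loc_pt k1 k2
  have hc2 : 0 < c / 2 := by positivity
  have hI : 0 ≤ ∫ z : V, exp (-(c / 2 * ‖z‖)) := integral_nonneg fun z => (exp_pos _).le
  refine ⟨c / 2, hc2, 2 * K * exp (c / 2) * ∫ z : V, exp (-(c / 2 * ‖z‖)), by positivity,
    fun F S S' hSS hS' p R hR => ?_⟩
  have hS : S ⊆ F := hSS.trans hS'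
  have h := part k1 k2 k4 F
    ((Bl F (G S' (fun y => φ (y - p))) - Bl F (G S (fun y => φ (y - p)))) ∘ₗ
      LinearMap.mulRight ℝ (G S' 1))
    (fun f hf => by
      change B F (f * G S' 1) _ - B F (f * G S' 1) _ = 0
      rw [B_congr (a' := 0) (fun x hx => by simp [hf x hx]) (fun _ _ => rfl),
        B_congr (a := f * G S' 1) (a' := 0) (fun x hx => by simp [hf x hx]) (fun _ _ => rfl)]
      simp [B])
    (M := fun r => 2 * K * exp (c / 2) * exp (-(c / 2 * R)) * exp (-(c / 2 * ‖r - p‖)))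
    (((integrable_exp_neg_norm hc2).comp_sub_right p).const_mul _)
    (fun r => by
      change |B F (fun x => φ (x - r) * G S' 1 x) _ - B F (fun x => φ (x - r) * G S' 1 x) _| ≤ _
      by_cases hr : ‖r - p‖ ≤ R - 1
      · have h0 : ∀ y ∈ F, y ∉ S → φ (y - r) * G S' 1 y = 0 := by
          intro y _ hy
          by_cases hy' : y ∈ S'
          · have h1 := hR y hy' hy
            have h2 := dist_triangle p r y
            rw [dist_comm p r, dist_comm r y, dist_eq_norm r p, dist_eq_norm y r] at h2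
            rw [k3 _ (by linarith only [hr, h1, h2]), zero_mul]
          · rw [G_out _ hy', mul_zero]
        rw [B_comm, B_G hS' _ (fun y hy hy' => h0 y hy fun h => hy' (hSS h)), B_comm,
          B_G hS _ h0, sub_self, abs_zero]
        positivity
      · have h1 := hK F S' S' hS' hS' r p
        have h2 := hK F S S' hS hS' r p
        have h3 : exp (-(c * ‖r - p‖))
            ≤ exp (c / 2) * exp (-(c / 2 * R)) * exp (-(c / 2 * ‖r - p‖)) := by
          rw [← exp_add, ← exp_add]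
          apply exp_le_exp.2
          push Not at hr
          linarith only [hc, hr, mul_pos_of_neg_of_neg (Mathlib.Tactic.Linarith.sub_neg_of_lt hc) (Mathlib.Tactic.Linarith.sub_neg_of_lt hr)]
        have h4 := mul_le_mul_of_nonneg_left h3 hK0
        refine (abs_sub _ _).trans ?_
        linarith only [h1, h2, h4])
  rw [integral_const_mul, integral_sub_right_eq_self (fun z : V => exp (-(c / 2 * ‖z‖))) p] at h
  have e : ((Bl F (G S' (fun y => φ (y - p))) - Bl F (G S (fun y => φ (y - p)))) ∘ₗ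
      LinearMap.mulRight ℝ (G S' 1)) 1
      = ∑ x ∈ F, G S' (fun y => φ (y - p)) x - ∑ x ∈ F, G S (fun y => φ (y - p)) x := by
    change B F (1 * G S' 1) _ - B F (1 * G S' 1) _ = _
    rw [one_mul, B_G_one hS' (fun y _ hy => G_out _ hy),
      B_G_one hS' (fun y _ hy => G_out _ fun h => hy (hSS h))]
  rw [e] at h
  exact h.trans (le_of_eq (by ring))

end Pool.Agent.Work.MP_6e5b56_gt.Hedge
end

-- merged part: Pool.Agent.Work.MP_6e5b56_gt.Hedge.Main
section
/-! The inclusion-exclusion defect of magnitude is controlled by the region that is close to both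
`A \ B` and `B \ A`. -/

set_option autoImplicit false

open MeasureTheory Set Filter Real Topology Metric Pointwise
open scoped ContDiff

namespace Pool.Agent.Work.MP_6e5b56_gt.Hedge

variable {V : Type*} [NormedAddCommGroup V] [DecidableEq V]

/-- Magnitude of a set: the supremum over finite subsets. -/
noncomputable def mag (S : Set V) : ℝ := ⨆ F : Finset V, ⨆ (_ : (↑F : Set V) ⊆ S), magF F

lemma exists_lt_magF (X : Set V) {ε : ℝ} (hε : 0 < ε) :
    ∃ F : Finset V, (↑F : Set V) ⊆ X ∧ mag X - ε < magF F := by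
  have h : mag X - ε < ⨆ F : Finset V, ⨆ (_ : (↑F : Set V) ⊆ X), magF F := sub_lt_self _ hε
  obtain ⟨F, hF⟩ := exists_lt_of_lt_ciSup h
  by_cases hFX : (↑F : Set V) ⊆ X
  · exact ⟨F, hFX, by simpa [hFX] using hF⟩
  · refine ⟨∅, by simp, ?_⟩
    have : magF (∅ : Finset V) = 0 := by simp [magF]
    rw [this]
    simpa [hFX] using hF

variable [InnerProductSpace ℝ V] [FiniteDimensional ℝ V] [MeasurableSpace V] [BorelSpace V]

lemma magF_le_mag {X : Set V} (hX : Bornology.IsBounded X) {F : Finset V}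
    (hF : (↑F : Set V) ⊆ X) : magF F ≤ mag X := by
  obtain ⟨M, hM0, hM⟩ := magF_bdd hX
  have hb : BddAbove (range fun F : Finset V => ⨆ (_ : (↑F : Set V) ⊆ X), magF F) := by
    refine ⟨M, ?_⟩
    rintro _ ⟨S, rfl⟩
    exact Real.iSup_le (fun h => hM S h) hM0
  refine le_trans ?_ (le_ciSup hb F)
  simp [hF]

omit [DecidableEq V] in
lemma integrable_sep {X Y : Set V} (hX : Bornology.IsBounded X) (hne : X.Nonempty) {c : ℝ}
    (hc : 0 < c) : Integrable (fun p : V => exp (-(c * (infDist p X + infDist p Y)))) := by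
  obtain ⟨R, hR⟩ := hX.subset_closedBall (0 : V)
  have hcont : Continuous (fun p : V => exp (-(c * (infDist p X + infDist p Y)))) :=
    (continuous_const.mul ((continuous_infDist_pt X).add (continuous_infDist_pt Y))).neg.rexp
  refine ((integrable_exp_neg_norm hc).const_mul (exp (c * R))).mono'
    hcont.aestronglyMeasurable (Eventually.of_forall fun p => ?_)
  have h1 : ‖p‖ - R ≤ infDist p X := by
    rw [le_infDist hne]
    intro y hy
    have h2 := mem_closedBall_zero_iff.1 (hR hy)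
    have h3 := norm_sub_norm_le p y
    rw [dist_eq_norm]
    linarith
  have h4 : 0 ≤ infDist p Y := infDist_nonneg
  rw [Real.norm_of_nonneg (exp_pos _).le, ← exp_add]
  apply exp_le_exp.2
  linarith only [hc, h1, h4, mul_nonneg_of_nonpos_of_nonpos (le_of_lt (Mathlib.Tactic.Linarith.sub_neg_of_lt hc)) (Mathlib.Tactic.Linarith.sub_nonpos_of_le h1), mul_nonneg_of_nonpos_of_nonpos (le_of_lt (Mathlib.Tactic.Linarith.sub_neg_of_lt hc)) (Mathlib.Tactic.Linarith.sub_nonpos_of_le h4)]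

lemma fin_bound : ∃ c : ℝ, 0 < c ∧ ∃ C : ℝ, 0 ≤ C ∧ ∀ (A B : Set V) (F S1 S2 S3 S4 : Finset V),
    (∀ x, x ∈ S1 ↔ x ∈ F ∧ x ∈ A ∪ B) → (∀ x, x ∈ S2 ↔ x ∈ F ∧ x ∈ A ∩ B) →
    (∀ x, x ∈ S3 ↔ x ∈ F ∧ x ∈ A) → (∀ x, x ∈ S4 ↔ x ∈ F ∧ x ∈ B) →
    Integrable (fun p : V => exp (-(c * (infDist p (A \ B) + infDist p (B \ A))))) →
    |magF S1 + magF S2 - magF S3 - magF S4|
      ≤ C * ∫ p : V, exp (-(c * (infDist p (A \ B) + infDist p (B \ A)))) := by
  obtain ⟨φ, k1, k2, k3, k4⟩ := exists_bump (V := V)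
  obtain ⟨c, hc, C, hC, H⟩ := loc k1 k2 k3 k4
  refine ⟨c / 2, by positivity, 2 * C, by positivity, fun A B F S1 S2 S3 S4 h1 h2 h3 h4 hI => ?_⟩
  have f1 : S1 ⊆ F := fun x hx => ((h1 x).1 hx).1
  have f2 : S2 ⊆ F := fun x hx => ((h2 x).1 hx).1
  have f3 : S3 ⊆ F := fun x hx => ((h3 x).1 hx).1
  have f4 : S4 ⊆ F := fun x hx => ((h4 x).1 hx).1
  have h := part k1 k2 k4 F (Sl F ∘ₗ (G S1 + G S2 - G S3 - G S4))
    (fun f hf => by
      simp only [LinearMap.comp_apply, LinearMap.sub_apply, LinearMap.add_apply]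
      rw [G_zero (fun x hx => hf x (f1 hx)), G_zero (fun x hx => hf x (f2 hx)),
        G_zero (fun x hx => hf x (f3 hx)), G_zero (fun x hx => hf x (f4 hx))]
      simp)
    (hI.const_mul (2 * C))
    (fun p => by
      simp only [LinearMap.comp_apply, LinearMap.sub_apply, LinearMap.add_apply, map_sub, map_add]
      have a1 := H F S3 S1 (fun x hx => (h1 x).2 ⟨f3 hx, Or.inl ((h3 x).1 hx).2⟩) f1 p
        (infDist p (B \ A)) (fun x hx hx' => infDist_le_dist_of_mem
          ⟨((h1 x).1 hx).2.resolve_left fun h => hx' ((h3 x).2 ⟨f1 hx, h⟩),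
            fun h => hx' ((h3 x).2 ⟨f1 hx, h⟩)⟩)
      have a2 := H F S2 S4 (fun x hx => (h4 x).2 ⟨f2 hx, ((h2 x).1 hx).2.2⟩) f4 p
        (infDist p (B \ A)) (fun x hx hx' => infDist_le_dist_of_mem
          ⟨((h4 x).1 hx).2, fun h => hx' ((h2 x).2 ⟨f4 hx, h, ((h4 x).1 hx).2⟩)⟩)
      have a3 := H F S4 S1 (fun x hx => (h1 x).2 ⟨f4 hx, Or.inr ((h4 x).1 hx).2⟩) f1 p
        (infDist p (A \ B)) (fun x hx hx' => infDist_le_dist_of_mem
          ⟨((h1 x).1 hx).2.resolve_right fun h => hx' ((h4 x).2 ⟨f1 hx, h⟩),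
            fun h => hx' ((h4 x).2 ⟨f1 hx, h⟩)⟩)
      have a4 := H F S2 S3 (fun x hx => (h3 x).2 ⟨f2 hx, ((h2 x).1 hx).2.1⟩) f3 p
        (infDist p (A \ B)) (fun x hx hx' => infDist_le_dist_of_mem
          ⟨((h3 x).1 hx).2, fun h => hx' ((h2 x).2 ⟨f3 hx, ((h3 x).1 hx).2, h⟩)⟩)
      change |∑ x ∈ F, G S1 _ x + ∑ x ∈ F, G S2 _ x - ∑ x ∈ F, G S3 _ x - ∑ x ∈ F, G S4 _ x| ≤ _
      rw [abs_le] at a1 a2 a3 a4 ⊢
      rcases le_total (infDist p (A \ B)) (infDist p (B \ A)) with hle | hle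
      · have : exp (-(c * infDist p (B \ A)))
            ≤ exp (-(c / 2 * (infDist p (A \ B) + infDist p (B \ A)))) :=
          exp_le_exp.2 (by linarith only [hc, hle, mul_nonneg_of_nonpos_of_nonpos (le_of_lt (Mathlib.Tactic.Linarith.sub_neg_of_lt hc)) (Mathlib.Tactic.Linarith.sub_nonpos_of_le hle)])
        have := mul_le_mul_of_nonneg_left this hC
        constructor <;> linarith only [a1, a2, this, a1.1, a1.2, a2.1, a2.2]
      · have : exp (-(c * infDist p (A \ B)))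
            ≤ exp (-(c / 2 * (infDist p (A \ B) + infDist p (B \ A)))) :=
          exp_le_exp.2 (by linarith only [hc, hle, mul_nonneg_of_nonpos_of_nonpos (le_of_lt (Mathlib.Tactic.Linarith.sub_neg_of_lt hc)) (Mathlib.Tactic.Linarith.sub_nonpos_of_le hle)])
        have := mul_le_mul_of_nonneg_left this hC
        constructor <;> linarith only [a3, a4, this, a3.1, a3.2, a4.1, a4.2])
  rw [integral_const_mul] at h
  simp only [LinearMap.comp_apply, LinearMap.sub_apply, LinearMap.add_apply, map_sub, map_add] at h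
  rw [← sum_G_one f1, ← sum_G_one f2, ← sum_G_one f3, ← sum_G_one f4]
  exact h

omit [InnerProductSpace ℝ V] [FiniteDimensional ℝ V] [MeasurableSpace V] [BorelSpace V] in
lemma defect_zero {A B : Set V} (h : A \ B = ∅ ∨ B \ A = ∅) :
    mag (A ∪ B) + mag (A ∩ B) - mag A - mag B = 0 := by
  rcases h with h | h
  · have h' := sdiff_eq_empty.1 h
    rw [union_eq_right.2 h', inter_eq_left.2 h']
    ring
  · have h' := sdiff_eq_empty.1 h
    rw [union_eq_left.2 h', inter_eq_right.2 h']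
    ring

lemma set_bound : ∃ c : ℝ, 0 < c ∧ ∃ C : ℝ, 0 ≤ C ∧ ∀ A B : Set V, Bornology.IsBounded A →
    Bornology.IsBounded B → |mag (A ∪ B) + mag (A ∩ B) - mag A - mag B|
      ≤ C * ∫ p : V, exp (-(c * (infDist p (A \ B) + infDist p (B \ A)))) := by
  classical
  obtain ⟨c, hc, C, hC, H⟩ := fin_bound (V := V)
  refine ⟨c, hc, C, hC, fun A B hA hB => ?_⟩
  rcases (A \ B).eq_empty_or_nonempty with h | h
  · rw [defect_zero (Or.inl h), abs_zero]
    exact mul_nonneg hC (integral_nonneg fun p => (exp_pos _).le)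
  refine le_of_forall_pos_le_add fun ε hε => ?_
  have hε2 : 0 < ε / 2 := by positivity
  obtain ⟨F1, s1, l1⟩ := exists_lt_magF (A ∪ B) hε2
  obtain ⟨F2, s2, l2⟩ := exists_lt_magF (A ∩ B) hε2
  obtain ⟨F3, s3, l3⟩ := exists_lt_magF A hε2
  obtain ⟨F4, s4, l4⟩ := exists_lt_magF B hε2
  set F := F1 ∪ F2 ∪ F3 ∪ F4 with hF
  have key : ∀ (X : Set V) (F' : Finset V), Bornology.IsBounded X → (↑F' : Set V) ⊆ X → F' ⊆ F →
      ∃ S : Finset V, (∀ x, x ∈ S ↔ x ∈ F ∧ x ∈ X) ∧ magF F' ≤ magF S ∧ magF S ≤ mag X :=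
    fun X F' hX h1 h2 => ⟨F.filter (· ∈ X), fun x => Finset.mem_filter, magF_mono fun x hx => Finset.mem_filter.2 ⟨h2 hx, h1 hx⟩,
      magF_le_mag hX fun x hx => (Finset.mem_filter.1 hx).2⟩
  obtain ⟨S1, m1, a1, b1⟩ := key _ F1 (hA.union hB) s1 (fun x hx => by simp [hF, hx])
  obtain ⟨S2, m2, a2, b2⟩ := key _ F2 (hA.subset inter_subset_left) s2 (fun x hx => by simp [hF, hx])
  obtain ⟨S3, m3, a3, b3⟩ := key _ F3 hA s3 (fun x hx => by simp [hF, hx])
  obtain ⟨S4, m4, a4, b4⟩ := key _ F4 hB s4 (fun x hx => by simp [hF, hx])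
  have h5 := H A B F S1 S2 S3 S4 m1 m2 m3 m4 (integrable_sep (hA.subset sdiff_subset) h hc)
  rw [abs_le] at h5 ⊢
  constructor <;> linarith [h5.1, h5.2]

/-- The inclusion-exclusion defect at scale `t`. -/
noncomputable def D (A B : Set V) (t : ℝ) : ℝ :=
  mag (t • (A ∪ B)) + mag (t • (A ∩ B)) - mag (t • A) - mag (t • B)

theorem main : ∃ C c : ℝ, 0 < c ∧ ∀ A B : Set V, IsCompact A → IsCompact B →
    (∀ t : ℝ, 0 < t → |D A B t| ≤ C * t ^ Module.finrank ℝ V *
      ∫ p : V, exp (-(c * t * (infDist p (A \ B) + infDist p (B \ A))))) ∧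
    (∀ δ : ℝ, (∀ a ∈ A \ B, ∀ b ∈ B \ A, δ ≤ dist a b) → ∃ C' : ℝ, ∀ t : ℝ, 1 ≤ t →
      |D A B t| ≤ C' * t ^ Module.finrank ℝ V * exp (-(c * δ * t))) ∧
    (Disjoint (closure (A \ B)) (closure (B \ A)) → Tendsto (D A B) atTop (𝓝 0)) := by
  obtain ⟨c, hc, C, hC, H⟩ := set_bound (V := V)
  refine ⟨C, c, hc, fun A B hA hB => ?_⟩
  have p1 : ∀ t : ℝ, 0 < t → |D A B t| ≤ C * t ^ Module.finrank ℝ V *
      ∫ p : V, exp (-(c * t * (infDist p (A \ B) + infDist p (B \ A)))) := by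
    intro t ht
    have h := H (t • A) (t • B) (hA.isBounded.smul₀ t) (hB.isBounded.smul₀ t)
    rw [← smul_set_union, ← smul_set_inter₀ ht.ne', ← smul_set_sdiff₀ ht.ne',
      ← smul_set_sdiff₀ ht.ne'] at h
    have h2 := Measure.integral_comp_smul (volume : Measure V)
      (fun p : V => exp (-(c * (infDist p (t • (A \ B)) + infDist p (t • (B \ A)))))) t
    simp only [infDist_smul₀ ht.ne', Real.norm_of_nonneg ht.le, smul_eq_mul] at h2
    rw [abs_of_pos (by positivity), eq_inv_mul_iff_mul_eq₀ (by positivity)] at h2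
    rw [← h2, ← mul_assoc] at h
    simpa only [D, ← mul_add, mul_assoc] using h
  have p2 : ∀ δ : ℝ, (∀ a ∈ A \ B, ∀ b ∈ B \ A, δ ≤ dist a b) → ∃ C' : ℝ, ∀ t : ℝ, 1 ≤ t →
      |D A B t| ≤ C' * t ^ Module.finrank ℝ V * exp (-(c * δ * t)) := by
    intro δ hδ
    by_cases h : A \ B = ∅ ∨ B \ A = ∅
    · refine ⟨0, fun t ht => ?_⟩
      have ht0 : t ≠ 0 := by positivity
      have : D A B t = 0 := by
        unfold D
        rw [smul_set_union, smul_set_inter₀ ht0]
        apply defect_zero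
        rw [← smul_set_sdiff₀ ht0, ← smul_set_sdiff₀ ht0]
        rcases h with h | h
        · left; rw [h, smul_set_empty]
        · right; rw [h, smul_set_empty]
      simp [this]
    push Not at h
    have hs : ∀ p : V, δ ≤ infDist p (A \ B) + infDist p (B \ A) := by
      intro p
      rw [← sub_le_iff_le_add, le_infDist h.1]
      intro a ha
      rw [sub_le_comm, le_infDist h.2]
      intro b hb
      have := hδ a ha b hb
      have := dist_triangle_left a b p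
      linarith
    refine ⟨C * exp (c * δ) * ∫ p : V, exp (-(c * (infDist p (A \ B) + infDist p (B \ A)))),
      fun t ht => (p1 t (by positivity)).trans ?_⟩
    have h3 : ∫ p : V, exp (-(c * t * (infDist p (A \ B) + infDist p (B \ A))))
        ≤ ∫ p : V, exp (c * δ) * exp (-(c * δ * t)) *
          exp (-(c * (infDist p (A \ B) + infDist p (B \ A)))) := by
      refine integral_mono_of_nonneg (Eventually.of_forall fun p => (exp_pos _).le)
        ((integrable_sep (hA.isBounded.subset sdiff_subset) h.1 hc).const_mul _)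
        (Eventually.of_forall fun p => ?_)
      simp only
      rw [← exp_add, ← exp_add]
      apply exp_le_exp.2
      have := mul_nonneg (mul_nonneg hc.le (sub_nonneg.2 ht)) (sub_nonneg.2 (hs p))
      linarith only [this]
    rw [integral_const_mul] at h3
    refine (mul_le_mul_of_nonneg_left h3 (by positivity)).trans (le_of_eq (by ring))
  refine ⟨p1, p2, fun hd => ?_⟩
  obtain ⟨r, hr, hr2⟩ := exists_pos_forall_lt_edist
    (hA.of_isClosed_subset isClosed_closure (closure_minimal sdiff_subset hA.isClosed))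
    isClosed_closure hd
  have hr0 : (0 : ℝ) < r := hr
  obtain ⟨C', hC'⟩ := p2 r (fun a ha b hb => by
    have := hr2 a (subset_closure ha) b (subset_closure hb)
    rw [edist_nndist, ENNReal.coe_lt_coe] at this
    exact le_of_lt this)
  have ha : 0 < c * r := by positivity
  have lim := ((tendsto_pow_mul_exp_neg_atTop_nhds_zero (Module.finrank ℝ V)).comp
    (tendsto_id.const_mul_atTop ha)).const_mul (C' / (c * r) ^ Module.finrank ℝ V)
  rw [mul_zero] at lim
  refine squeeze_zero_norm' ?_ lim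
  filter_upwards [eventually_ge_atTop (1 : ℝ)] with t ht
  refine (hC' t ht).trans (le_of_eq ?_)
  simp only [Function.comp, id, mul_pow]
  field_simp

end Pool.Agent.Work.MP_6e5b56_gt.Hedge
end
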